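import Mathlib

set_option autoImplicit false

/-!
# A graph on `ω₁ × ω₁` without complete subgraphs of size four, built with the continuum hypothesis

`W` is a well-ordered set with countable initial segments. The points are the pairs `(b, ξ)`, with
column `b` and height `ξ`. Every point `x` gets a set `D x` of neighbours of smaller height in
larger columns.
-/

open Set

namespace Pool.Agent.H529R3

/-- Recursive choice along a well-order. -/
theorem exists_rec {W B : Type*} [LinearOrder W] [WellFoundedLT W] [Nonempty B]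
    (P : W → (W → B) → B → Prop)
    (hloc : ∀ ξ D D' v, (∀ η < ξ, D η = D' η) → P ξ D v → P ξ D' v)
    (hstep : ∀ ξ D, (∀ η < ξ, P η D (D η)) → ∃ v, P ξ D v) :
    ∃ D : W → B, ∀ ξ, P ξ D (D ξ) := by
  classical
  obtain ⟨b0⟩ := ‹Nonempty B›
  let ext : (ξ : W) → ((η : W) → η < ξ → B) → W → B := fun ξ f η =>
    if h : η < ξ then f η h else b0
  let F : (ξ : W) → ((η : W) → η < ξ → B) → B := fun ξ f =>
    if h : ∃ v, P ξ (ext ξ f) v then h.choose else b0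
  let D : W → B := (wellFounded_lt (α := W)).fix F
  have hD : ∀ ξ, D ξ = F ξ (fun η _ => D η) := fun ξ => WellFounded.fix_eq _ F ξ
  have hext : ∀ ξ η, η < ξ → ext ξ (fun η _ => D η) η = D η := fun ξ η h => dif_pos h
  refine ⟨D, fun ξ => ?_⟩
  induction ξ using WellFoundedLT.induction with
  | ind ξ ih =>
    obtain ⟨v, hv⟩ := hstep ξ D ih
    have h1 : ∃ v, P ξ (ext ξ (fun η _ => D η)) v :=
      ⟨v, hloc ξ D _ v (fun η h => (hext ξ η h).symm) hv⟩
    have h2 : D ξ = h1.choose := by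
      rw [hD]
      exact dif_pos h1
    have h3 := h1.choose_spec
    rw [← h2] at h3
    exact hloc ξ _ D _ (fun η h => hext ξ η h) h3

section

variable {W : Type*} [LinearOrder W]

/-- The conditions on a set `S` of neighbours of the point `(b, ξ)`, if `E` gives the sets of
neighbours of the lower points. -/
structure Inv (e : W → W → ℕ) (E : W × W → Set (W × W)) (b ξ : W) (S : Set (W × W)) :
    Prop where
  bd : ∀ y ∈ S, b < y.1 ∧ y.1 < ξ ∧ y.2 < ξ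
  col : ∀ y ∈ S, ∀ y' ∈ S, y.1 = y'.1 → y = y'
  reg : ∀ y ∈ S, ∀ y' ∈ S, y' ∈ E y → e y'.1 b < e y'.1 y.1
  tri : ∀ y₁ ∈ S, ∀ y₂ ∈ S, ∀ y₃ ∈ S, y₂ ∈ E y₁ → y₃ ∈ E y₁ → y₃ ∈ E y₂ → False

/-- A code for countably many infinite sets in increasing columns, all below `ξ`. -/
def GoodCode (b ξ : W) (k : (ℕ → W) × (ℕ → ℕ → W)) : Prop :=
  StrictMono k.1 ∧ (∀ i, Function.Injective (k.2 i)) ∧ (∀ i, k.1 i < ξ) ∧
    (∀ i j, k.2 i j < ξ) ∧ ∃ i, b < k.1 i

theorem step (e : W → W → ℕ) (he : ∀ c, Set.InjOn (e c) (Iio c))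
    (E : W × W → Set (W × W)) (b ξ : W)
    (hE : ∀ p : W × W, p.2 < ξ → Inv e E p.1 p.2 (E p))
    (F : Finset (W × W)) (hF : Inv e E b ξ (F : Set (W × W)))
    (k : (ℕ → W) × (ℕ → ℕ → W)) :
    ∃ F' : Finset (W × W), F ⊆ F' ∧ Inv e E b ξ (F' : Set (W × W)) ∧
      (GoodCode b ξ k → ∃ i j, (k.1 i, k.2 i j) ∈ F') := by
  classical
  by_cases hk : GoodCode b ξ k
  swap
  · exact ⟨F, Finset.Subset.refl _, hF, fun h => absurd h hk⟩
  obtain ⟨hmono, hinj, ha, hz, i0, hi0⟩ := hk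
  -- the bad indices
  have hbadfin : ∀ (c : W) (m : ℕ), {i | k.1 i < c ∧ e c (k.1 i) ≤ m}.Finite := by
    intro c m
    have h1 : Set.InjOn (fun i => e c (k.1 i)) {i | k.1 i < c ∧ e c (k.1 i) ≤ m} := by
      intro i hi j hj hij
      exact hmono.injective (he c hi.1 hj.1 hij)
    refine Set.Finite.of_finite_image ((Set.finite_Iic m).subset ?_) h1
    rintro _ ⟨i, hi, rfl⟩
    exact hi.2
  have hbad : ((Iio i0) ∪ (⋃ y ∈ F, {i | k.1 i = y.1}) ∪
      (⋃ y ∈ F, {i | k.1 i < y.1 ∧ e y.1 (k.1 i) ≤ e y.1 b}) ∪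
      (⋃ y ∈ F, ⋃ y' ∈ F, {i | k.1 i < y'.1 ∧ e y'.1 (k.1 i) ≤ e y'.1 y.1})).Finite := by
    refine (((Set.finite_Iio i0).union ?_).union ?_).union ?_
    · refine F.finite_toSet.biUnion fun y _ => ?_
      refine Set.Subsingleton.finite ?_
      intro i hi j hj
      exact hmono.injective (hi.trans hj.symm)
    · exact F.finite_toSet.biUnion fun y _ => hbadfin _ _
    · exact F.finite_toSet.biUnion fun y _ => F.finite_toSet.biUnion fun y' _ => hbadfin _ _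
  obtain ⟨i, hi⟩ := hbad.exists_notMem
  simp only [mem_union, mem_Iio, mem_iUnion, mem_setOf_eq, not_or, not_exists, not_and,
    not_lt, not_le, exists_prop] at hi
  obtain ⟨⟨⟨h1, h2⟩, h3⟩, h4⟩ := hi
  have hb : b < k.1 i := hi0.trans_le (hmono.monotone h1)
  -- the bad second indices
  have hbad2 : (⋃ y ∈ F, {j | (k.1 i, k.2 i j) ∈ E y}).Finite := by
    refine F.finite_toSet.biUnion fun y hy => ?_
    refine Set.Subsingleton.finite ?_
    intro j hj j' hj'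
    have h5 := (hE y (hF.bd y hy).2.2).col _ hj _ hj' rfl
    exact hinj i (congrArg Prod.snd h5)
  obtain ⟨j, hj⟩ := hbad2.exists_notMem
  simp only [mem_iUnion, mem_setOf_eq, not_exists, exists_prop, not_and] at hj
  let p : W × W := (k.1 i, k.2 i j)
  have hp1 : p.1 = k.1 i := rfl
  have hpF : ∀ y ∈ F, p ∉ E y := hj
  have hpξ : p.2 < ξ := hz i j
  have hEp := hE p hpξ
  have hpp : p ∉ E p := fun h => absurd (hEp.bd p h).1 (lt_irrefl _)
  have hp' : ∀ y ∈ insert p F, p ∉ E y := by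
    intro y hy
    rcases Finset.mem_insert.mp hy with rfl | hy
    · exact hpp
    · exact hpF y hy
  refine ⟨insert p F, Finset.subset_insert _ _, ⟨?_, ?_, ?_, ?_⟩, fun _ =>
    ⟨i, j, Finset.mem_insert_self _ _⟩⟩
  · intro y hy
    rcases Finset.mem_insert.mp (Finset.mem_coe.mp hy) with rfl | hy
    · exact ⟨hb, ha i, hpξ⟩
    · exact hF.bd y hy
  · intro y hy y' hy' hyy
    rcases Finset.mem_insert.mp (Finset.mem_coe.mp hy) with rfl | hy <;>
      rcases Finset.mem_insert.mp (Finset.mem_coe.mp hy') with rfl | hy'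
    · rfl
    · exact absurd hyy (h2 y' hy')
    · exact absurd hyy.symm (h2 y hy)
    · exact hF.col y hy y' hy' hyy
  · intro y hy y' hy' hyy
    rcases Finset.mem_insert.mp (Finset.mem_coe.mp hy') with rfl | hy'
    · exact absurd hyy (hp' y (Finset.mem_coe.mp hy))
    rcases Finset.mem_insert.mp (Finset.mem_coe.mp hy) with rfl | hy
    · exact h3 y' hy' (hEp.bd y' hyy).1
    · exact hF.reg y hy y' hy' hyy
  · intro y₁ hy₁ y₂ hy₂ y₃ hy₃ h12 h13 h23
    rcases Finset.mem_insert.mp (Finset.mem_coe.mp hy₃) with rfl | hy₃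
    · exact absurd h13 (hp' y₁ (Finset.mem_coe.mp hy₁))
    rcases Finset.mem_insert.mp (Finset.mem_coe.mp hy₂) with rfl | hy₂
    · exact absurd h12 (hp' y₁ (Finset.mem_coe.mp hy₁))
    rcases Finset.mem_insert.mp (Finset.mem_coe.mp hy₁) with rfl | hy₁
    · have h5 := hEp.reg y₂ h12 y₃ h13 h23
      have h6 := (hEp.bd y₃ h13).1
      exact absurd h5 (not_lt.mpr (h4 y₂ hy₂ y₃ hy₃ h6).le)
    · exact hF.tri y₁ hy₁ y₂ hy₂ y₃ hy₃ h12 h13 h23

theorem exists_set (e : W → W → ℕ) (he : ∀ c, Set.InjOn (e c) (Iio c))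
    (E : W × W → Set (W × W)) (b ξ : W)
    (hE : ∀ p : W × W, p.2 < ξ → Inv e E p.1 p.2 (E p))
    (code : W → (ℕ → W) × (ℕ → ℕ → W)) (hc : (Iio ξ).Countable) :
    ∃ S : Set (W × W), Inv e E b ξ S ∧
      ∀ ν < ξ, GoodCode b ξ (code ν) → ∃ i j, ((code ν).1 i, (code ν).2 i j) ∈ S := by
  classical
  have hs : ∃ s : ℕ → W, Iio ξ ⊆ range s := by
    rcases (Iio ξ).eq_empty_or_nonempty with h | h
    · exact ⟨fun _ => ξ, by rw [h]; exact empty_subset _⟩
    · obtain ⟨s, hs⟩ := hc.exists_eq_range h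
      exact ⟨s, hs.le⟩
  obtain ⟨s, hs⟩ := hs
  let T : Type _ := {F : Finset (W × W) // Inv e E b ξ (F : Set (W × W))}
  have hst : ∀ (F : T) (l : ℕ), ∃ F' : T, F.1 ⊆ F'.1 ∧
      (GoodCode b ξ (code (s l)) → ∃ i j, ((code (s l)).1 i, (code (s l)).2 i j) ∈ F'.1) := by
    intro F l
    obtain ⟨F', h1, h2, h3⟩ := step e he E b ξ hE F.1 F.2 (code (s l))
    exact ⟨⟨F', h2⟩, h1, h3⟩
  choose nx hnx1 hnx2 using hst
  let F0 : T := ⟨∅, by
    refine ⟨?_, ?_, ?_, ?_⟩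
    · intro y hy; simp at hy
    · intro y hy; simp at hy
    · intro y hy; simp at hy
    · intro y hy; simp at hy⟩
  let G : ℕ → T := fun n => Nat.rec F0 (fun l F => nx F l) n
  have hG : ∀ n, G (n + 1) = nx (G n) n := fun n => rfl
  have hmono : Monotone fun n => (G n).1 := monotone_nat_of_le_succ fun n => by
    rw [hG]
    exact hnx1 _ _
  have hU2 : ∀ y ∈ ⋃ n, ((G n).1 : Set (W × W)), ∀ y' ∈ ⋃ n, ((G n).1 : Set (W × W)),
      ∃ n, y ∈ ((G n).1 : Set (W × W)) ∧ y' ∈ ((G n).1 : Set (W × W)) := by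
    intro y hy y' hy'
    obtain ⟨n, hn⟩ := mem_iUnion.mp hy
    obtain ⟨m, hm⟩ := mem_iUnion.mp hy'
    exact ⟨max n m, hmono (le_max_left _ _) hn, hmono (le_max_right _ _) hm⟩
  refine ⟨⋃ n, ((G n).1 : Set (W × W)), ⟨?_, ?_, ?_, ?_⟩, ?_⟩
  · intro y hy
    obtain ⟨n, hn⟩ := mem_iUnion.mp hy
    exact (G n).2.bd y hn
  · intro y hy y' hy'
    obtain ⟨n, h1, h2⟩ := hU2 y hy y' hy'
    exact (G n).2.col y h1 y' h2
  · intro y hy y' hy'
    obtain ⟨n, h1, h2⟩ := hU2 y hy y' hy'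
    exact (G n).2.reg y h1 y' h2
  · intro y₁ hy₁ y₂ hy₂ y₃ hy₃
    obtain ⟨n, h1, h2⟩ := hU2 y₁ hy₁ y₂ hy₂
    obtain ⟨m, hm⟩ := mem_iUnion.mp hy₃
    exact (G (max n m)).2.tri y₁ (hmono (le_max_left _ _) h1) y₂
      (hmono (le_max_left _ _) h2) y₃ (hmono (le_max_right _ _) hm)
  · intro ν hν hgood
    obtain ⟨l, hl⟩ := hs hν
    rw [← hl] at hgood ⊢
    obtain ⟨i, j, hij⟩ := hnx2 (G l) l hgood
    refine ⟨i, j, mem_iUnion.mpr ⟨l + 1, ?_⟩⟩
    rw [hG]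
    exact hij

theorem exists_graph [WellFoundedLT W] (hcount : ∀ ξ : W, (Iio ξ).Countable)
    (code : W → (ℕ → W) × (ℕ → ℕ → W)) :
    ∃ E : W × W → Set (W × W),
      (∀ x, ∀ y ∈ E x, x.1 < y.1 ∧ y.2 < x.2) ∧
      (∀ x, ∀ y₁ ∈ E x, ∀ y₂ ∈ E x, ∀ y₃ ∈ E x, y₂ ∈ E y₁ → y₃ ∈ E y₁ → y₃ ∈ E y₂ → False) ∧
      ∀ b ξ ν, ν < ξ → GoodCode b ξ (code ν) →
        ∃ i j, ((code ν).1 i, (code ν).2 i j) ∈ E (b, ξ) := by
  classical
  have hex : ∀ c : W, ∃ f : W → ℕ, Set.InjOn f (Iio c) := by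
    intro c
    exact Set.countable_iff_exists_injOn.mp (hcount c)
  choose e he using hex
  let tot : (W → W → Set (W × W)) → W × W → Set (W × W) := fun D p => D p.2 p.1
  let P : W → (W → (W → Set (W × W))) → (W → Set (W × W)) → Prop := fun ξ D v =>
    ∀ b, Inv e (tot D) b ξ (v b) ∧
      ∀ ν < ξ, GoodCode b ξ (code ν) → ∃ i j, ((code ν).1 i, (code ν).2 i j) ∈ v b
  obtain ⟨D, hD⟩ := exists_rec P (by
    intro ξ D D' v hDD hP b
    obtain ⟨h1, h2⟩ := hP b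
    refine ⟨⟨h1.bd, h1.col, ?_, ?_⟩, h2⟩
    · intro y hy y' hy' hyy
      refine h1.reg y hy y' hy' ?_
      have h3 := hDD y.2 (h1.bd y hy).2.2
      simp only [tot] at hyy ⊢
      rw [h3]
      exact hyy
    · intro y₁ hy₁ y₂ hy₂ y₃ hy₃ h12 h13 h23
      have h3 := hDD y₁.2 (h1.bd y₁ hy₁).2.2
      have h4 := hDD y₂.2 (h1.bd y₂ hy₂).2.2
      refine h1.tri y₁ hy₁ y₂ hy₂ y₃ hy₃ ?_ ?_ ?_
      · simp only [tot] at h12 ⊢
        rw [h3]; exact h12
      · simp only [tot] at h13 ⊢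
        rw [h3]; exact h13
      · simp only [tot] at h23 ⊢
        rw [h4]; exact h23) (by
    intro ξ D hP
    have h1 : ∀ b, ∃ S : Set (W × W), Inv e (tot D) b ξ S ∧
        ∀ ν < ξ, GoodCode b ξ (code ν) → ∃ i j, ((code ν).1 i, (code ν).2 i j) ∈ S :=
      fun b => exists_set e he (tot D) b ξ (fun p hp => (hP p.2 hp p.1).1) code (hcount ξ)
    choose v hv using h1
    exact ⟨v, hv⟩)
  refine ⟨tot D, ?_, ?_, ?_⟩
  · intro x y hy
    obtain ⟨h1, _⟩ := hD x.2 x.1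
    have h2 := h1.bd y hy
    exact ⟨h2.1, h2.2.2⟩
  · intro x
    obtain ⟨h1, _⟩ := hD x.2 x.1
    exact h1.tri
  · intro b ξ ν hν hg
    exact (hD ξ b).2 ν hν hg

end

end Pool.Agent.H529R3
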