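import Mathlib
import Pool.Agent.H529R3.Greedy

set_option autoImplicit false

/-!
# The continuum hypothesis and the relation for `ω₁ ^ 2`
-/

open Set Cardinal

namespace Pool.Agent.H529R3.Ch

/-- The first uncountable ordinal. -/
noncomputable abbrev o1 : Ordinal.{0} := (Cardinal.aleph 1).ord

/-- The set of countable ordinals. -/
abbrev W : Type 1 := Iio o1

theorem o1_ne : o1 ≠ 0 := by
  have h : (0 : Cardinal.{0}) < Cardinal.aleph 1 := Cardinal.aleph_pos 1
  intro h0
  rw [Cardinal.ord_eq_zero] at h0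
  exact h.ne' h0

theorem mk_W : #W = Cardinal.aleph 1 := by
  rw [Cardinal.mk_Iio_ordinal, Cardinal.card_ord, Cardinal.lift_aleph, Ordinal.lift_one]

theorem countable_Iio (ξ : W) : (Iio ξ).Countable := by
  rw [Cardinal.countable_iff_lt_aleph_one]
  have h1 : #(Iio ξ) ≤ #(Iio (ξ : Ordinal.{0})) := by
    refine Cardinal.mk_le_of_injective
      (f := fun x : Iio ξ => (⟨(x.1 : Ordinal.{0}), x.2⟩ : Iio (ξ : Ordinal.{0}))) ?_
    intro x y hxy
    have : (x.1 : Ordinal.{0}) = y.1 :=
      congrArg (fun t : Iio (ξ : Ordinal.{0}) => (t : Ordinal.{0})) hxy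
    exact Subtype.ext (Subtype.ext this)
  refine h1.trans_lt ?_
  rw [Cardinal.mk_Iio_ordinal]
  have h2 : (ξ : Ordinal.{0}).card < Cardinal.aleph 1 := Cardinal.lt_ord.mp ξ.2
  have h3 : Cardinal.lift.{1} (ξ : Ordinal.{0}).card < Cardinal.lift.{1} (Cardinal.aleph 1) :=
    Cardinal.lift_lt.mpr h2
  rwa [Cardinal.lift_aleph, Ordinal.lift_one] at h3

theorem not_countable_W : ¬ (univ : Set W).Countable := by
  rw [Cardinal.countable_iff_lt_aleph_one, Cardinal.mk_univ, mk_W]
  exact lt_irrefl _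

theorem countable_Iic (ξ : W) : (Iic ξ).Countable := by
  have : Iic ξ = insert ξ (Iio ξ) := by
    ext x
    simp only [mem_Iic, mem_insert_iff, mem_Iio]
    exact le_iff_eq_or_lt
  rw [this]
  exact (countable_Iio ξ).insert ξ

theorem exists_bound (T : Set W) (hT : T.Countable) : ∃ u : W, ∀ t ∈ T, t < u := by
  by_contra hcon
  push Not at hcon
  refine not_countable_W ?_
  have : (univ : Set W) ⊆ ⋃ t ∈ T, Iic t := by
    intro u _
    obtain ⟨t, ht, hut⟩ := hcon u
    exact mem_biUnion ht hut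
  exact (hT.biUnion fun t _ => countable_Iic t).mono this

theorem exists_gt_of_not_countable (Z : Set W) (hZ : ¬ Z.Countable) (u : W) :
    ∃ ξ ∈ Z, u < ξ := by
  by_contra hcon
  push Not at hcon
  exact hZ ((countable_Iic u).mono hcon)

theorem exists_code (hCH : (2 : Cardinal.{0}) ^ ℵ₀ = Cardinal.aleph 1) :
    ∃ code : W → (ℕ → W) × (ℕ → ℕ → W), Function.Surjective code := by
  have h2 : (2 : Cardinal.{1}) ^ ℵ₀ = Cardinal.aleph 1 := by
    have h := congrArg Cardinal.lift.{1} hCH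
    simpa using h
  have h1 : #((ℕ → W) × (ℕ → ℕ → W)) = #W := by
    rw [mk_W, ← h2]
    simp only [Cardinal.mk_prod, Cardinal.lift_id, Cardinal.mk_pi, mk_W]
    rw [← h2]
    simp only [Cardinal.prod_const, Cardinal.lift_id, Cardinal.mk_nat, Cardinal.lift_aleph0,
      Cardinal.lift_power, Cardinal.lift_ofNat]
    rw [← Cardinal.power_mul, ← Cardinal.power_mul, Cardinal.aleph0_mul_aleph0,
      Cardinal.aleph0_mul_aleph0]
    exact Cardinal.mul_eq_self (Cardinal.cantor _).le
  obtain ⟨e⟩ := Cardinal.eq.mp h1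
  exact ⟨e.symm, e.symm.surjective⟩

theorem o1_pos : (0 : Ordinal.{0}) < o1 := lt_of_le_of_ne zero_le o1_ne.symm

open Classical in
/-- The point of `W × W` of an ordinal. -/
noncomputable def pt (α : Ordinal.{0}) : W × W :=
  (if h : α / o1 < o1 then ⟨α / o1, h⟩ else ⟨0, o1_pos⟩, ⟨α % o1, Ordinal.mod_lt α o1_ne⟩)

theorem pt_lex {α β : Ordinal.{0}} (hαβ : α < β) (hβ : β < o1 * o1) :
    (pt α).1 < (pt β).1 ∨ ((pt α).1 = (pt β).1 ∧ (pt α).2 < (pt β).2) := by
  have h1 : β / o1 < o1 := (Ordinal.div_lt o1_ne).mpr hβ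
  have h2 : α / o1 < o1 := (Ordinal.div_lt o1_ne).mpr (hαβ.trans hβ)
  have h3 : α / o1 ≤ β / o1 := Ordinal.div_le_left hαβ.le _
  have h4 : (pt α).1 = ⟨α / o1, h2⟩ := dif_pos h2
  have h5 : (pt β).1 = ⟨β / o1, h1⟩ := dif_pos h1
  rw [h4, h5]
  rcases h3.lt_or_eq with h | h
  · left
    exact h
  · right
    refine ⟨Subtype.ext h, ?_⟩
    change α % o1 < β % o1
    have h6 := Ordinal.div_add_mod α o1
    have h7 := Ordinal.div_add_mod β o1
    rw [← h6, ← h7, h] at hαβ
    exact lt_of_add_lt_add_left hαβ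

theorem exists_colouring (hCH : (2 : Cardinal.{0}) ^ ℵ₀ = Cardinal.aleph 1) :
    ∃ c : Ordinal.{0} → Ordinal.{0} → Prop, (∀ α β, c α β → c β α) ∧
      (¬ ∃ f : Ordinal.{0} → Ordinal.{0},
          StrictMonoOn f (Set.Iio ((Cardinal.aleph 1).ord * Ordinal.omega0)) ∧
          (∀ α, α < (Cardinal.aleph 1).ord * Ordinal.omega0 →
              f α < (Cardinal.aleph 1).ord * (Cardinal.aleph 1).ord) ∧
          (∀ α β, α < β → β < (Cardinal.aleph 1).ord * Ordinal.omega0 →
              c (f α) (f β))) ∧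
      (¬ ∃ g : Fin 4 → Ordinal.{0},
          StrictMono g ∧
          (∀ i, g i < (Cardinal.aleph 1).ord * (Cardinal.aleph 1).ord) ∧
          (∀ i j, i < j → ¬ c (g i) (g j))) := by
  classical
  obtain ⟨code, hcode⟩ := exists_code hCH
  obtain ⟨E, hbd, htri, hhit⟩ := exists_graph countable_Iio code
  refine ⟨fun α β => ¬ (pt β ∈ E (pt α) ∨ pt α ∈ E (pt β)), ?_, ?_, ?_⟩
  · intro α β h h'
    exact h h'.symm
  · rintro ⟨f, hf, hfb, hfc⟩
    have hlt : ∀ (n : ℕ) (ζ : W), o1 * (n : Ordinal.{0}) + (ζ : Ordinal.{0}) <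
        o1 * Ordinal.omega0 := by
      intro n ζ
      have h1 : o1 * (n : Ordinal.{0}) + (ζ : Ordinal.{0}) < o1 * (n : Ordinal.{0}) + o1 :=
        add_lt_add_right ζ.2 _
      have h2 : o1 * (n : Ordinal.{0}) + o1 = o1 * ((n + 1 : ℕ) : Ordinal.{0}) := by
        push_cast
        rw [mul_add_one]
      rw [h2] at h1
      refine h1.trans ?_
      exact (mul_lt_mul_iff_right₀ o1_pos).mpr (Ordinal.natCast_lt_omega0 _)
    let o : ℕ → W → Ordinal.{0} := fun n ζ => o1 * (n : Ordinal.{0}) + (ζ : Ordinal.{0})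
    have ho1 : ∀ n ζ ζ', ζ < ζ' → o n ζ < o n ζ' := by
      intro n ζ ζ' h
      exact add_lt_add_right (show (ζ : Ordinal.{0}) < ζ' from h) _
    have ho2 : ∀ n m ζ ζ', n < m → o n ζ < o m ζ' := by
      intro n m ζ ζ' h
      have h1 : o1 * (n : Ordinal.{0}) + (ζ : Ordinal.{0}) < o1 * (n : Ordinal.{0}) + o1 :=
        add_lt_add_right ζ.2 _
      have h2 : o1 * (n : Ordinal.{0}) + o1 = o1 * ((n + 1 : ℕ) : Ordinal.{0}) := by
        push_cast
        rw [mul_add_one]
      rw [h2] at h1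
      refine h1.trans_le ?_
      have h3 : o1 * ((n + 1 : ℕ) : Ordinal.{0}) ≤ o1 * (m : Ordinal.{0}) :=
        mul_le_mul_right (by exact_mod_cast h) _
      exact h3.trans (le_add_of_nonneg_right zero_le)
    let q : ℕ → W → W × W := fun n ζ => pt (f (o n ζ))
    have hlex : ∀ {α β}, α < β → β < o1 * Ordinal.omega0 →
        (pt (f α)).1 < (pt (f β)).1 ∨
          ((pt (f α)).1 = (pt (f β)).1 ∧ (pt (f α)).2 < (pt (f β)).2) := by
      intro α β h hβ
      exact pt_lex (hf (h.trans hβ) hβ h) (hfb β hβ)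
    have hle : ∀ {α β}, α < β → β < o1 * Ordinal.omega0 →
        (pt (f α)).1 ≤ (pt (f β)).1 := by
      intro α β h hβ
      rcases hlex h hβ with h1 | h1
      · exact h1.le
      · exact h1.1.le
    have hA : ∀ n, ∃ a : W, ¬ {ζ : W | (q n ζ).1 = a}.Countable := by
      intro n
      by_contra hcon
      push Not at hcon
      refine not_countable_W ?_
      let B : W := (q (n + 1) ⟨0, o1_pos⟩).1
      have h1 : (univ : Set W) ⊆ ⋃ a ∈ Iic B, {ζ : W | (q n ζ).1 = a} := by
        intro ζ _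
        refine mem_biUnion (x := (q n ζ).1) ?_ rfl
        exact hle (ho2 n (n + 1) ζ ⟨0, o1_pos⟩ (Nat.lt_succ_self n)) (hlt _ _)
      exact ((countable_Iic B).biUnion fun a _ => hcon a).mono h1
    choose a ha using hA
    let S : ℕ → Set W := fun n => {ζ : W | (q n ζ).1 = a n}
    have hinjS : ∀ n, Set.InjOn (fun ζ => (q n ζ).2) (S n) := by
      intro n ζ hζ ζ' hζ' h
      rcases lt_trichotomy ζ ζ' with h1 | h1 | h1
      · rcases hlex (ho1 n ζ ζ' h1) (hlt _ _) with h2 | h2
        · have h3 : (q n ζ).1 < (q n ζ').1 := h2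
          rw [show (q n ζ).1 = a n from hζ, show (q n ζ').1 = a n from hζ'] at h3
          exact absurd h3 (lt_irrefl _)
        · have h3 : (q n ζ).2 < (q n ζ').2 := h2.2
          rw [show (q n ζ).2 = (q n ζ').2 from h] at h3
          exact absurd h3 (lt_irrefl _)
      · exact h1
      · rcases hlex (ho1 n ζ' ζ h1) (hlt _ _) with h2 | h2
        · have h3 : (q n ζ').1 < (q n ζ).1 := h2
          rw [show (q n ζ).1 = a n from hζ, show (q n ζ').1 = a n from hζ'] at h3
          exact absurd h3 (lt_irrefl _)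
        · have h3 : (q n ζ').2 < (q n ζ).2 := h2.2
          rw [show (q n ζ).2 = (q n ζ').2 from h] at h3
          exact absurd h3 (lt_irrefl _)
    let Z : ℕ → Set W := fun n => (fun ζ => (q n ζ).2) '' S n
    have hZ : ∀ n, ¬ (Z n).Countable := by
      intro n hc
      exact ha n (Set.countable_of_injective_of_countable_image (hinjS n) hc)
    have hamono : StrictMono a := by
      refine strictMono_nat_of_lt_succ fun n => ?_
      have h1 : (S (n + 1)).Nonempty := by
        by_contra h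
        rw [not_nonempty_iff_eq_empty] at h
        refine ha (n + 1) ?_
        have h' : {ζ : W | (q (n + 1) ζ).1 = a (n + 1)} = ∅ := h
        rw [h']
        exact countable_empty
      obtain ⟨ζ', hζ'⟩ := h1
      by_contra hcon
      push Not at hcon
      refine hZ n ((countable_Iio (q (n + 1) ζ').2).mono ?_)
      rintro _ ⟨ζ, hζ, rfl⟩
      rcases hlex (ho2 n (n + 1) ζ ζ' (Nat.lt_succ_self n)) (hlt _ _) with h2 | h2
      · have h3 : (q n ζ).1 < (q (n + 1) ζ').1 := h2
        rw [show (q n ζ).1 = a n from hζ, show (q (n + 1) ζ').1 = a (n + 1) from hζ'] at h3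
        exact absurd h3 (not_lt.mpr hcon)
      · exact h2.2
    have hZinf : ∀ n, (Z n).Infinite := fun n h => hZ n h.countable
    let z : ℕ → ℕ → W := fun n j => ((hZinf n).natEmbedding _ j : W)
    have hz1 : ∀ n, Function.Injective (z n) := by
      intro n i j hij
      exact ((hZinf n).natEmbedding _).injective (Subtype.ext hij)
    have hz2 : ∀ n j, z n j ∈ Z n := fun n j => ((hZinf n).natEmbedding _ j).2
    obtain ⟨ν, hν⟩ := hcode (a, z)
    obtain ⟨u, hu⟩ := exists_bound ({ν} ∪ range a ∪ ⋃ n, range (z n))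
      (((countable_singleton ν).union (countable_range a)).union
        (countable_iUnion fun n => countable_range (z n)))
    obtain ⟨ξ, hξ, huξ⟩ := exists_gt_of_not_countable (Z 0) (hZ 0) u
    have hgood : GoodCode (a 0) ξ (code ν) := by
      rw [hν]
      refine ⟨hamono, hz1, fun i => ?_, fun i j => ?_, 1, hamono Nat.zero_lt_one⟩
      · exact (hu _ (Or.inl (Or.inr (mem_range_self i)))).trans huξ
      · exact (hu _ (Or.inr (mem_iUnion.mpr ⟨i, mem_range_self j⟩))).trans huξ
    obtain ⟨i, j, hij⟩ := hhit (a 0) ξ ν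
      ((hu _ (Or.inl (Or.inl (mem_singleton ν)))).trans huξ) hgood
    rw [hν] at hij
    have hi0 : a 0 < a i := (hbd _ _ hij).1
    have hi : 0 < i := by
      rcases Nat.eq_zero_or_pos i with h | h
      · rw [h] at hi0
        exact absurd hi0 (lt_irrefl _)
      · exact h
    obtain ⟨ζ, hζ, hζ2⟩ := hξ
    obtain ⟨ζ', hζ', hζ2'⟩ := hz2 i j
    have h1 : pt (f (o 0 ζ)) = (a 0, ξ) := Prod.ext hζ hζ2
    have h2 : pt (f (o i ζ')) = (a i, z i j) := Prod.ext hζ' hζ2'
    refine hfc (o 0 ζ) (o i ζ') (ho2 0 i ζ ζ' hi) (hlt _ _) (Or.inl ?_)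
    rw [h1, h2]
    exact hij
  · rintro ⟨g, hg, hgb, hgc⟩
    have key : ∀ i j : Fin 4, i < j → pt (g j) ∈ E (pt (g i)) := by
      intro i j hij
      have h1 := hgc i j hij
      rw [not_not] at h1
      rcases h1 with h1 | h1
      · exact h1
      · have h2 := (hbd _ _ h1).1
        rcases pt_lex (hg hij) (hgb j) with h3 | h3
        · exact absurd h2 (not_lt.mpr h3.le)
        · exact absurd h2 (not_lt.mpr h3.1.le)
    exact htri (pt (g 0)) (pt (g 1)) (key 0 1 (by decide)) (pt (g 2)) (key 0 2 (by decide))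
      (pt (g 3)) (key 0 3 (by decide)) (key 1 2 (by decide)) (key 1 3 (by decide))
      (key 2 3 (by decide))

end Pool.Agent.H529R3.Ch
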