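import Mathlib

set_option autoImplicit false

/-!
# Infinite monochromatic sets for colourings of branches

`I` is a well-ordered index set, the points are the functions `I → Bool`, the colours are the
elements of `I`, and a pair of points with first difference `d` has a colour below `max d m`.
-/

open Cardinal Set

namespace Pool.Agent.H529R3

universe u

section

variable {I : Type u} [LinearOrder I] [WellFoundedLT I]

/-- All pairs of different elements of `S` have the colour `ν`. -/
def Mono {X C : Type*} (c : X → X → C) (ν : C) (S : Set X) : Prop :=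
  ∀ a ∈ S, ∀ b ∈ S, a ≠ b → c a b = ν

theorem Mono.subset {X C : Type*} {c : X → X → C} {ν : C} {S T : Set X} (h : Mono c ν T)
    (hST : S ⊆ T) : Mono c ν S := fun a ha b hb => h a (hST ha) b (hST hb)

/-- Without infinite monochromatic sets, finite monochromatic sets extend to maximal ones. -/
theorem exists_max {X C : Type*} [DecidableEq X] {c : X → X → C} {ν : C} {N : Set X} {x : X}
    (hno : ¬ ∃ Y : Set X, Y.Infinite ∧ ∃ ν, Mono c ν Y) :
    ∃ F : Finset X, (F : Set X) ⊆ N ∧ Mono c ν (insert x (F : Set X)) ∧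
      ∀ y ∈ N, y ∉ F → ¬ Mono c ν (insert x (insert y (F : Set X))) := by
  classical
  by_contra hcon
  push Not at hcon
  let P : Type _ := {F : Finset X // (F : Set X) ⊆ N ∧ Mono c ν (insert x (F : Set X))}
  have hstep : ∀ F : P, ∃ y ∈ N, y ∉ F.1 ∧ Mono c ν (insert x (insert y (F.1 : Set X))) :=
    fun F => hcon F.1 F.2.1 F.2.2
  choose y hyN hyF hy using hstep
  let nx : P → P := fun F => ⟨insert (y F) F.1, by
    rw [Finset.coe_insert]
    exact insert_subset (hyN F) F.2.1, by
    rw [Finset.coe_insert]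
    exact hy F⟩
  let F0 : P := ⟨∅, by simp, by
    intro a ha b hb hab
    simp only [Finset.coe_empty, insert_empty_eq, mem_singleton_iff] at ha hb
    exact absurd (ha.trans hb.symm) hab⟩
  let s : ℕ → P := fun n => nx^[n] F0
  have hs : ∀ n, s (n + 1) = nx (s n) := fun n => Function.iterate_succ_apply' nx n F0
  have hmono : ∀ n k, (s n).1 ⊆ (s (n + k)).1 := by
    intro n k
    induction k with
    | zero => exact Finset.Subset.refl _
    | succ k ih =>
      refine ih.trans ?_
      rw [← add_assoc, hs]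
      exact Finset.subset_insert _ _
  have hmem : ∀ n, y (s n) ∈ (s (n + 1)).1 := by
    intro n
    rw [hs]
    exact Finset.mem_insert_self _ _
  have hlt : ∀ n k, n < k → y (s n) ∈ (s k).1 := by
    intro n k h
    obtain ⟨j, rfl⟩ := Nat.exists_eq_add_of_lt h
    rw [show n + j + 1 = (n + 1) + j by ring]
    exact hmono (n + 1) j (hmem n)
  have hinj : Function.Injective fun n => y (s n) := by
    intro n k h
    rcases lt_trichotomy n k with h' | h' | h'
    · have := hlt n k h'
      rw [show y (s n) = y (s k) from h] at this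
      exact absurd this (hyF _)
    · exact h'
    · have := hlt k n h'
      rw [show y (s k) = y (s n) from h.symm] at this
      exact absurd this (hyF _)
  refine hno ⟨range fun n => y (s n), infinite_range_of_injective hinj, ν, ?_⟩
  rintro _ ⟨n, rfl⟩ _ ⟨k, rfl⟩ hne
  exact (s (max n k + 1)).2.2 _ (mem_insert_of_mem _ (hlt n _ (by omega))) _
    (mem_insert_of_mem _ (hlt k _ (by omega))) hne

/-- The points which are compatible with the finite sets `M ν`, `ν < α`. -/
def Q (c : (I → Bool) → (I → Bool) → I) (α : I) (M : Iio α → Finset (I → Bool)) :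
    Set (I → Bool) :=
  {z | ∀ ν : Iio α, z ∉ M ν ∧ Mono c ν (insert z (M ν : Set (I → Bool)))}

theorem exists_first {x y : I → Bool} (h : x ≠ y) : ∃ d, x d ≠ y d ∧ ∀ i < d, x i = y i := by
  have h1 : ({i | x i ≠ y i} : Set I).Nonempty := by
    by_contra hcon
    rw [Set.not_nonempty_iff_eq_empty] at hcon
    apply h
    funext i
    by_contra h2
    exact (Set.eq_empty_iff_forall_notMem.mp hcon i) h2
  refine ⟨(wellFounded_lt : WellFounded ((· < ·) : I → I → Prop)).min _ h1,
    WellFounded.min_mem _ _ h1, fun i hi => ?_⟩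
  by_contra h2
  exact WellFounded.not_lt_min _ _ (show i ∈ {i | x i ≠ y i} from h2) hi

/-- The hypotheses on the cardinals. -/
structure Ctx (I : Type u) [LinearOrder I] [WellFoundedLT I] (U : Type u) (m : I) : Prop where
  inf : ℵ₀ ≤ #U
  hm : #(Iio m) ≤ #U
  seg : ∀ α : I, (2 : Cardinal.{u}) ^ #(Iio α) ≤ 2 ^ #U
  card : #I ≤ 2 ^ #U
  big : (2 : Cardinal.{u}) ^ #U < 2 ^ #I
  nomax : ∀ α : I, ∃ β, α < β
  reg : ∀ (α : I) (f : Iio α → I), ∃ b, ∀ i, f i < b

variable {U : Type u} {m : I}

theorem Ctx.inf2 (h : Ctx I U m) : ℵ₀ ≤ (2 : Cardinal.{u}) ^ #U :=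
  h.inf.trans (Cardinal.cantor _).le

theorem Ctx.pow (h : Ctx I U m) (α : I) : ((2 : Cardinal.{u}) ^ #U) ^ #(Iio α) ≤ 2 ^ #U := by
  calc ((2 : Cardinal.{u}) ^ #U) ^ #(Iio α) = (2 ^ #(Iio α)) ^ #U := by
        rw [← Cardinal.power_mul, ← Cardinal.power_mul, mul_comm]
    _ ≤ (2 ^ #U) ^ #U := Cardinal.power_le_power_right (h.seg α)
    _ = 2 ^ #U := by rw [← Cardinal.power_mul, Cardinal.mul_eq_self h.inf]

theorem mk_finset_le' {X : Type u} {θ : Cardinal.{u}} (hθ : ℵ₀ ≤ θ) (hX : #X ≤ θ) :
    #(Finset X) ≤ θ := by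
  rcases finite_or_infinite X with h | h
  · have : Finite (Finset X) := inferInstance
    exact (Cardinal.lt_aleph0_of_finite _).le.trans hθ
  · rw [Cardinal.mk_finset_of_infinite]
    exact hX

/-- A small set of points closed under witnesses. -/
theorem Ctx.exists_closed (h : Ctx I U m) (c : (I → Bool) → (I → Bool) → I) :
    ∃ N : Set (I → Bool), #N ≤ 2 ^ #U ∧ ∀ (α : I) (M : Iio α → Finset (I → Bool)),
      (∀ ν, (M ν : Set (I → Bool)) ⊆ N) → (∃ z ∈ Q c α M, ∃ z' ∈ Q c α M, z α ≠ z' α) →
      ∃ z ∈ Q c α M, ∃ z' ∈ Q c α M, z ∈ N ∧ z' ∈ N ∧ z α ≠ z' α := by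
  classical
  -- witnesses
  have hW : ∀ (a : Σ α : I, (Iio α → Finset (I → Bool))), ∃ w : (I → Bool) × (I → Bool),
      (∃ z ∈ Q c a.1 a.2, ∃ z' ∈ Q c a.1 a.2, z a.1 ≠ z' a.1) →
      w.1 ∈ Q c a.1 a.2 ∧ w.2 ∈ Q c a.1 a.2 ∧ w.1 a.1 ≠ w.2 a.1 := by
    intro a
    by_cases h1 : ∃ z ∈ Q c a.1 a.2, ∃ z' ∈ Q c a.1 a.2, z a.1 ≠ z' a.1
    · obtain ⟨z, hz, z', hz', h2⟩ := h1
      exact ⟨(z, z'), fun _ => ⟨hz, hz', h2⟩⟩
    · exact ⟨(fun _ => false, fun _ => false), fun h2 => absurd h2 h1⟩
  choose W hW using hW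
  let step : Set (I → Bool) → Set (I → Bool) := fun A =>
    A ∪ {w | ∃ a : Σ α : I, (Iio α → Finset (I → Bool)), (∀ ν, (a.2 ν : Set (I → Bool)) ⊆ A) ∧
      (w = (W a).1 ∨ w = (W a).2)}
  have hinf := h.inf2
  have hstep : ∀ A : Set (I → Bool), #A ≤ 2 ^ #U → #(step A) ≤ 2 ^ #U := by
    intro A hA
    let G : (Σ α : I, (Iio α → Finset A)) × Bool → (I → Bool) := fun p =>
      let a : Σ α : I, (Iio α → Finset (I → Bool)) :=
        ⟨p.1.1, fun ν => (p.1.2 ν).map (Function.Embedding.subtype _)⟩
      if p.2 then (W a).1 else (W a).2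
    have h1 : {w | ∃ a : Σ α : I, (Iio α → Finset (I → Bool)),
        (∀ ν, (a.2 ν : Set (I → Bool)) ⊆ A) ∧ (w = (W a).1 ∨ w = (W a).2)} ⊆ range G := by
      rintro w ⟨⟨α, M⟩, hM, hw⟩
      have hM' : ∀ ν : Iio α, ∃ F : Finset A, F.map (Function.Embedding.subtype _) = M ν := by
        intro ν
        refine ⟨(M ν).subtype (· ∈ A), ?_⟩
        rw [Finset.subtype_map]
        exact Finset.filter_true_of_mem fun x hx => hM ν hx
      choose F hF using hM'
      have hFM : (fun ν => (F ν).map (Function.Embedding.subtype _)) = M := funext hF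
      rcases hw with rfl | rfl
      · refine ⟨(⟨α, F⟩, true), ?_⟩
        show (if true = true then (W ⟨α, _⟩).1 else (W ⟨α, _⟩).2) = _
        rw [hFM, if_pos rfl]
      · refine ⟨(⟨α, F⟩, false), ?_⟩
        show (if false = true then (W ⟨α, _⟩).1 else (W ⟨α, _⟩).2) = _
        rw [hFM, if_neg (by simp)]
    have h2 : #(range G) ≤ 2 ^ #U := by
      refine Cardinal.mk_range_le.trans ?_
      rw [Cardinal.mk_prod, Cardinal.mk_bool, Cardinal.lift_uzero, Cardinal.lift_ofNat]
      have h3 : #(Σ α : I, (Iio α → Finset A)) ≤ 2 ^ #U := by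
        rw [Cardinal.mk_sigma]
        refine (Cardinal.sum_le_sum _ (fun _ : I => (2 : Cardinal.{u}) ^ #U) ?_).trans ?_
        · intro α
          rw [Cardinal.mk_arrow, Cardinal.lift_id, Cardinal.lift_id]
          exact (Cardinal.power_le_power_right (mk_finset_le' hinf hA)).trans (h.pow α)
        · rw [Cardinal.sum_const']
          exact (mul_le_mul' h.card le_rfl).trans (Cardinal.mul_eq_self hinf).le
      calc #(Σ α : I, (Iio α → Finset A)) * 2 ≤ 2 ^ #U * 2 ^ #U :=
            mul_le_mul' h3 ((Cardinal.nat_lt_aleph0 2).le.trans hinf)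
        _ = 2 ^ #U := Cardinal.mul_eq_self hinf
    refine (Cardinal.mk_union_le _ _).trans ?_
    refine (add_le_add hA ((Cardinal.mk_le_mk_of_subset h1).trans h2)).trans ?_
    rw [Cardinal.add_eq_self hinf]
  let wf : WellFounded ((· < ·) : I → I → Prop) := wellFounded_lt
  let Nf : I → Set (I → Bool) := wf.fix fun j rec => ⋃ i : Iio j, step (rec i.1 i.2)
  have hNf : ∀ j, Nf j = ⋃ i : Iio j, step (Nf i.1) := fun j => wf.fix_eq _ j
  have hcard : ∀ j, #(Nf j) ≤ 2 ^ #U := by
    intro j
    induction j using WellFoundedLT.induction with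
    | _ j ih =>
      rw [hNf]
      refine (Cardinal.mk_iUnion_le_sum_mk).trans ?_
      refine (Cardinal.sum_le_sum _ (fun _ : Iio j => (2 : Cardinal.{u}) ^ #U)
        fun i => hstep _ (ih i.1 i.2)).trans ?_
      rw [Cardinal.sum_const']
      refine (mul_le_mul' (((Cardinal.cantor _).le).trans (h.seg j)) le_rfl).trans ?_
      exact (Cardinal.mul_eq_self hinf).le
  have hsub : ∀ i j, i < j → step (Nf i) ⊆ Nf j := by
    intro i j hij
    rw [hNf j]
    exact subset_iUnion (fun i : Iio j => step (Nf i.1)) ⟨i, hij⟩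
  have hsub' : ∀ i j, i ≤ j → Nf i ⊆ Nf j := by
    intro i j hij
    rcases hij.eq_or_lt with rfl | hij
    · exact Subset.rfl
    · exact subset_union_left.trans (hsub i j hij)
  refine ⟨⋃ j, Nf j, ?_, ?_⟩
  · refine (Cardinal.mk_iUnion_le_sum_mk).trans ?_
    refine (Cardinal.sum_le_sum _ (fun _ : I => (2 : Cardinal.{u}) ^ #U) hcard).trans ?_
    rw [Cardinal.sum_const']
    exact (mul_le_mul' h.card le_rfl).trans (Cardinal.mul_eq_self hinf).le
  · intro α M hM hex
    have h1 : ∀ ν : Iio α, ∃ j, (M ν : Set (I → Bool)) ⊆ Nf j := by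
      intro ν
      have hne : Nonempty I := ⟨α⟩
      have h2 : ∀ F : Finset (I → Bool), (F : Set (I → Bool)) ⊆ ⋃ j, Nf j →
          ∃ j, (F : Set (I → Bool)) ⊆ Nf j := by
        intro F
        induction F using Finset.induction_on with
        | empty => intro _; exact ⟨α, by simp⟩
        | insert a F _ ih =>
          intro hF
          rw [Finset.coe_insert] at hF
          obtain ⟨j, hj⟩ := ih ((subset_insert _ _).trans hF)
          obtain ⟨k, hk⟩ := mem_iUnion.mp (hF (mem_insert _ _))
          refine ⟨max j k, ?_⟩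
          rw [Finset.coe_insert]
          exact insert_subset (hsub' _ _ (le_max_right _ _) hk)
            (hj.trans (hsub' _ _ (le_max_left _ _)))
      exact h2 (M ν) (hM ν)
    choose f hf using h1
    obtain ⟨b, hb⟩ := h.reg α f
    obtain ⟨b', hb'⟩ := h.nomax b
    have h3 : ∀ ν, (M ν : Set (I → Bool)) ⊆ Nf b := fun ν =>
      (hf ν).trans (hsub' _ _ (hb ν).le)
    obtain ⟨w1, w2, w3⟩ := hW ⟨α, M⟩ hex
    refine ⟨_, w1, _, w2, ?_, ?_, w3⟩
    · exact mem_iUnion.mpr ⟨b', hsub b b' hb' (Or.inr ⟨⟨α, M⟩, h3, Or.inl rfl⟩)⟩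
    · exact mem_iUnion.mpr ⟨b', hsub b b' hb' (Or.inr ⟨⟨α, M⟩, h3, Or.inr rfl⟩)⟩

/-- The core theorem. -/
theorem Ctx.core (h : Ctx I U m) (c : (I → Bool) → (I → Bool) → I) (hsymm : ∀ x y, c x y = c y x)
    (hc : ∀ x y d, x d ≠ y d → (∀ i < d, x i = y i) → c x y < max d m) :
    ∃ Y : Set (I → Bool), Y.Infinite ∧ ∃ ν, Mono c ν Y := by
  classical
  by_contra hno
  obtain ⟨N, hN, hcl⟩ := h.exists_closed c
  have hinf := h.inf2
  -- the maximal finite sets
  have hmax := fun (x : I → Bool) (ν : I) => exists_max (c := c) (ν := ν) (N := N) (x := x) hno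
  choose M hMN hM hMmax using hmax
  -- the prediction property
  have key : ∀ x x' : I → Bool, x ∉ N → x' ∉ N → ∀ β, x β ≠ x' β → (∀ i < β, x i = x' i) →
      m ≤ β → ∃ ν < β, M x ν ≠ M x' ν := by
    intro x x' hx hx' β hβ _ hmβ
    by_contra hcon
    push Not at hcon
    have h1 : ∀ z : I → Bool, z ∉ N → z ∈ Q c β (fun ν => M z ν) := by
      intro z hz ν
      exact ⟨fun hzν => hz (hMN z ν hzν), hM z ν⟩
    have h2 : x' ∈ Q c β (fun ν => M x ν) := by
      have h3 := h1 x' hx'
      have h4 : (fun ν : Iio β => M x' ν) = (fun ν : Iio β => M x ν) := by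
        funext ν
        exact (hcon ν ν.2).symm
      rwa [h4] at h3
    obtain ⟨z, hz, z', hz', hzN, hzN', hne⟩ :=
      hcl β (fun ν => M x ν) (fun ν => hMN x ν) ⟨x, h1 x hx, x', h2, hβ⟩
    have h5 : ∀ y ∈ Q c β (fun ν => M x ν), y ∈ N → y β = x β := by
      intro y hy hyN
      have hxy : x ≠ y := fun h => hx (h ▸ hyN)
      obtain ⟨d, hd, hd'⟩ := exists_first hxy
      have h6 := hc x y d hd hd'
      by_contra h7
      have h8 : d ≤ β := by
        by_contra h9
        push Not at h9
        exact h7 (hd' β h9).symm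
      have h9 : c x y < β := h6.trans_le (max_le h8 hmβ)
      obtain ⟨h10, h11⟩ := hy ⟨c x y, h9⟩
      refine hMmax x (c x y) y hyN h10 ?_
      have h12 := hM x (c x y)
      have hxM : ∀ a ∈ M x (c x y), a ≠ x := fun a ha h => hx (h ▸ hMN x _ ha)
      have hyM : ∀ a ∈ M x (c x y), a ≠ y := fun a ha h => h10 (h ▸ ha)
      intro a ha b hb hab
      rcases ha with rfl | rfl | ha <;> rcases hb with rfl | rfl | hb
      · exact absurd rfl hab
      · rfl
      · exact h12 _ (mem_insert _ _) _ (mem_insert_of_mem _ hb) hab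
      · exact hsymm _ _
      · exact absurd rfl hab
      · exact h11 _ (mem_insert _ _) _ (mem_insert_of_mem _ hb) hab
      · exact h12 _ (mem_insert_of_mem _ ha) _ (mem_insert _ _) hab
      · exact h11 _ (mem_insert_of_mem _ ha) _ (mem_insert _ _) hab
      · exact h12 _ (mem_insert_of_mem _ ha) _ (mem_insert_of_mem _ hb) hab
    exact hne ((h5 z hz hzN).trans (h5 z' hz' hzN').symm)
  -- coding of the finite sets
  have hφ : ∃ φ : Finset (I → Bool) → U → Bool, ∀ F F' : Finset (I → Bool),
      (F : Set (I → Bool)) ⊆ N → (F' : Set (I → Bool)) ⊆ N → φ F = φ F' → F = F' := by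
    have h1 : #(Finset N) ≤ #(U → Bool) := by
      refine (mk_finset_le' hinf hN).trans ?_
      simp
    obtain ⟨g⟩ := (Cardinal.le_def _ _).mp h1
    refine ⟨fun F => g (F.subtype (· ∈ N)), fun F F' hF hF' h2 => ?_⟩
    have h3 := g.injective h2
    have h4 : ∀ F : Finset (I → Bool), (F : Set (I → Bool)) ⊆ N →
        (F.subtype (· ∈ N)).map (Function.Embedding.subtype _) = F := by
      intro F hF
      rw [Finset.subtype_map]
      exact Finset.filter_true_of_mem fun x hx => hF hx
    rw [← h4 F hF, ← h4 F' hF', h3]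
  obtain ⟨φ, hφ⟩ := hφ
  let S : (I → Bool) → U → (I → Bool) := fun x i => if x ∈ N then x else fun ν => φ (M x ν) i
  let val : (I → Bool) → List U → (I → Bool) := fun x s => s.foldl S x
  have hval : ∀ x s i, val x (s ++ [i]) = S (val x s) i := by
    intro x s i
    simp [val, List.foldl_append]
  let D : (I → Bool) → List U → (Iio m → Bool) × Option N := fun x s =>
    (fun i => val x s i, if h : val x s ∈ N then some ⟨_, h⟩ else none)
  -- two points with the same data
  have hD : ¬ Function.Injective D := by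
    intro hinj
    have h1 := Cardinal.mk_le_of_injective hinj
    have h2 : #(List U → (Iio m → Bool) × Option N) ≤ 2 ^ #U := by
      have hUinf : Infinite U := Cardinal.infinite_iff.mpr h.inf
      rw [Cardinal.mk_arrow, Cardinal.lift_id, Cardinal.lift_id, Cardinal.mk_list_eq_mk]
      have h3 : #((Iio m → Bool) × Option N) ≤ 2 ^ #U := by
        rw [Cardinal.mk_prod, Cardinal.lift_id, Cardinal.lift_id]
        have h4 : #(Iio m → Bool) ≤ 2 ^ #U := by
          simp only [Cardinal.mk_pi, Cardinal.mk_bool, Cardinal.prod_const, Cardinal.lift_id,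
            Cardinal.lift_ofNat, Cardinal.lift_uzero]
          exact h.seg m
        have h5 : #(Option N) ≤ 2 ^ #U := by
          rw [Cardinal.mk_option]
          refine (add_le_add hN (Cardinal.one_le_aleph0.trans hinf)).trans ?_
          rw [Cardinal.add_eq_self hinf]
        exact (mul_le_mul' h4 h5).trans (Cardinal.mul_eq_self hinf).le
      refine (Cardinal.power_le_power_right h3).trans ?_
      rw [← Cardinal.power_mul, Cardinal.mul_eq_self h.inf]
    have h3 : #(I → Bool) = 2 ^ #I := by simp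
    rw [h3] at h1
    exact absurd (h1.trans h2) (not_le.mpr h.big)
  simp only [Function.Injective, not_forall] at hD
  obtain ⟨x, x', hDx, hne⟩ := hD
  have hmain : ∀ β : I, ∀ s : List U, val x s β ≠ val x' s β →
      (∀ i < β, val x s i = val x' s i) → False := by
    intro β
    induction β using WellFoundedLT.induction with
    | _ β ih =>
      intro s hβ hβ'
      have h1 := congrFun hDx s
      have h2 : (fun i : Iio m => val x s i) = (fun i : Iio m => val x' s i) :=
        congrArg Prod.fst h1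
      have h3 : (if h : val x s ∈ N then some (⟨_, h⟩ : N) else none) =
          (if h : val x' s ∈ N then some (⟨_, h⟩ : N) else none) := congrArg Prod.snd h1
      have hmβ : m ≤ β := by
        by_contra h4
        push Not at h4
        exact hβ (congrFun h2 ⟨β, h4⟩)
      have h4 : val x s ∉ N := by
        intro h5
        rw [dif_pos h5] at h3
        by_cases h6 : val x' s ∈ N
        · rw [dif_pos h6] at h3
          have h7 := congrArg Subtype.val (Option.some.inj h3)
          simp only at h7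
          exact hβ (congrFun h7 β)
        · rw [dif_neg h6] at h3
          exact absurd h3 (by simp)
      have h5 : val x' s ∉ N := by
        intro h6
        rw [dif_neg h4, dif_pos h6] at h3
        exact absurd h3 (by simp)
      obtain ⟨ν, hν, hM'⟩ := key _ _ h4 h5 β hβ hβ' hmβ
      have h6 : φ (M (val x s) ν) ≠ φ (M (val x' s) ν) := fun h7 =>
        hM' (hφ _ _ (hMN _ _) (hMN _ _) h7)
      obtain ⟨i, hi⟩ := Function.ne_iff.mp h6
      have h7 : val x (s ++ [i]) ν ≠ val x' (s ++ [i]) ν := by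
        rw [hval, hval]
        simp only [S, if_neg h4, if_neg h5]
        exact hi
      have h8 : val x (s ++ [i]) ≠ val x' (s ++ [i]) := fun h => h7 (by rw [h])
      obtain ⟨d, hd, hd'⟩ := exists_first h8
      have h9 : d ≤ ν := by
        by_contra h9
        push Not at h9
        exact h7 (hd' ν h9)
      exact ih d (h9.trans_lt hν) (s ++ [i]) hd hd'
  obtain ⟨d, hd, hd'⟩ := exists_first hne
  exact hmain d [] hd hd'

end

end Pool.Agent.H529R3
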