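import Mathlib
import Pool.Agent.H529R3.Core

set_option autoImplicit false

/-!
# Branches of length a cardinal and their first differences
-/

open Cardinal Set

namespace Pool.Agent.H529R3

universe u

/-- The set `2 ^ κ` of all functions from the ordinals below `κ` to a two-element set. -/
abbrev Branch (κ : Cardinal.{u}) : Type (u + 1) := Iio κ.ord → Bool

/-- The first difference of two branches: the least ordinal at which they differ. -/
noncomputable def Delta {κ : Cardinal.{u}} (x y : Branch κ) : Ordinal.{u} :=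
  sInf {i | ∃ h : i < κ.ord, x ⟨i, h⟩ ≠ y ⟨i, h⟩}

theorem Delta_symm {κ : Cardinal.{u}} (x y : Branch κ) : Delta x y = Delta y x := by
  unfold Delta
  congr 1
  ext i
  constructor
  · rintro ⟨h, h'⟩; exact ⟨h, h'.symm⟩
  · rintro ⟨h, h'⟩; exact ⟨h, h'.symm⟩

theorem Delta_spec {κ : Cardinal.{u}} {x y : Branch κ} (hxy : x ≠ y) :
    ∃ h : Delta x y < κ.ord, x ⟨Delta x y, h⟩ ≠ y ⟨Delta x y, h⟩ := by
  obtain ⟨i, hi⟩ := Function.ne_iff.mp hxy
  have h : {i | ∃ h : i < κ.ord, x ⟨i, h⟩ ≠ y ⟨i, h⟩}.Nonempty := ⟨i.1, i.2, hi⟩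
  exact csInf_mem h

theorem eq_of_lt_Delta {κ : Cardinal.{u}} {x y : Branch κ} {i : Ordinal.{u}} (h : i < κ.ord)
    (hi : i < Delta x y) : x ⟨i, h⟩ = y ⟨i, h⟩ := by
  by_contra hne
  have : Delta x y ≤ i := csInf_le' ⟨h, hne⟩
  exact absurd hi (not_lt.mpr this)

theorem Delta_le_of_ne {κ : Cardinal.{u}} {x y : Branch κ} {i : Ordinal.{u}} (h : i < κ.ord)
    (hne : x ⟨i, h⟩ ≠ y ⟨i, h⟩) : Delta x y ≤ i := csInf_le' ⟨h, hne⟩

theorem Delta_eq {κ : Cardinal.{u}} {x y : Branch κ} {i : Ordinal.{u}} (h : i < κ.ord)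
    (hne : x ⟨i, h⟩ ≠ y ⟨i, h⟩) (hlt : ∀ j (hj : j < i), x ⟨j, hj.trans h⟩ = y ⟨j, hj.trans h⟩) :
    Delta x y = i := by
  refine le_antisymm (Delta_le_of_ne h hne) ?_
  by_contra hcon
  push Not at hcon
  have hxy : x ≠ y := fun h' => hne (by rw [h'])
  obtain ⟨h1, h2⟩ := Delta_spec hxy
  exact h2 (hlt _ hcon)

theorem mk_Iio_toType {o : Ordinal.{u}} (a : Iio o) :
    #(Iio (Ordinal.ToType.mk a)) = (a : Ordinal.{u}).card := by
  have e : Iio (Ordinal.ToType.mk a) ≃ Iio (a : Ordinal.{u}) :=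
    { toFun := fun x => ⟨(Ordinal.ToType.toOrd x.1 : Iio o), by
        have := x.2
        have h2 : Ordinal.ToType.toOrd x.1 < a := by
          have h3 := (Ordinal.ToType.mk (o := o)).symm.lt_iff_lt.mpr x.2
          simpa using h3
        exact h2⟩
      invFun := fun x => ⟨Ordinal.ToType.mk
          ⟨x.1, lt_trans (show x.1 < a.1 from x.2) (show a.1 < o from a.2)⟩, by
        have h2 : (⟨x.1, lt_trans (show x.1 < a.1 from x.2) (show a.1 < o from a.2)⟩ : Iio o) <
            a := x.2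
        exact (Ordinal.ToType.mk (o := o)).lt_iff_lt.mpr h2⟩
      left_inv := fun x => by
        apply Subtype.ext
        exact OrderIso.apply_symm_apply _ _
      right_inv := fun x => by
        apply Subtype.ext
        simp }
  have h1 := Cardinal.mk_congr_lift e
  rw [Cardinal.mk_Iio_ordinal, Cardinal.lift_lift] at h1
  exact Cardinal.lift_injective h1

section Transfer

variable {κ μ : Cardinal.{u}}

/-- The least exponent at which the power set of `μ` is exceeded. -/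
noncomputable def least (μ : Cardinal.{u}) : Cardinal.{u} :=
  sInf {l : Cardinal.{u} | (2 : Cardinal.{u}) ^ μ < 2 ^ l}

theorem least_spec (μ : Cardinal.{u}) : (2 : Cardinal.{u}) ^ μ < 2 ^ least μ := by
  have h : {l : Cardinal.{u} | (2 : Cardinal.{u}) ^ μ < 2 ^ l}.Nonempty :=
    ⟨(2 : Cardinal.{u}) ^ μ, Cardinal.cantor _⟩
  exact csInf_mem h

theorem least_le {l : Cardinal.{u}} (h : (2 : Cardinal.{u}) ^ μ < 2 ^ l) : least μ ≤ l :=
  csInf_le' h

theorem pow_le_of_lt_least {l : Cardinal.{u}} (h : l < least μ) :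
    (2 : Cardinal.{u}) ^ l ≤ (2 : Cardinal.{u}) ^ μ := by
  by_contra hcon
  push Not at hcon
  exact absurd (least_le hcon) (not_le.mpr h)

theorem lt_least (μ : Cardinal.{u}) : μ < least μ := by
  by_contra hcon
  push Not at hcon
  exact absurd (least_spec μ) (not_lt.mpr (Cardinal.power_le_power_left two_ne_zero hcon))

theorem least_card (μ : Cardinal.{u}) : least μ ≤ 2 ^ μ := least_le (Cardinal.cantor _)

theorem ctx_least (hμ : ℵ₀ ≤ μ) : Ctx (least μ).ord.ToType μ.ord.ToType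
    (Ordinal.ToType.mk ⟨μ.ord, Cardinal.ord_lt_ord.mpr (lt_least μ)⟩) := by
  have hno : NoMaxOrder (least μ).ord.ToType :=
    Cardinal.noMaxOrder (hμ.trans (lt_least μ).le)
  have hseg : ∀ α : (least μ).ord.ToType, (2 : Cardinal.{u}) ^ #(Iio α) ≤ 2 ^ μ := fun α =>
    pow_le_of_lt_least (Cardinal.mk_Iio_toType_ord_lt α)
  refine ⟨?_, ?_, ?_, ?_, ?_, ?_, ?_⟩
  · rw [Cardinal.mk_ord_toType]; exact hμ
  · rw [mk_Iio_toType, Cardinal.mk_ord_toType]
    simp
  · intro α
    rw [Cardinal.mk_ord_toType]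
    exact hseg α
  · rw [Cardinal.mk_ord_toType, Cardinal.mk_ord_toType]
    exact least_card μ
  · rw [Cardinal.mk_ord_toType, Cardinal.mk_ord_toType]
    exact least_spec μ
  · exact fun α => exists_gt α
  · intro α f
    by_contra hcon
    push Not at hcon
    have hle : (2 : Cardinal.{u}) ^ least μ ≤ 2 ^ μ := by
      have h1 : #((least μ).ord.ToType → Bool) ≤ #(∀ i : Iio α, (Iic (f i) → Bool)) := by
        refine Cardinal.mk_le_of_injective
          (f := fun x (i : Iio α) (j : Iic (f i)) => x j.1) ?_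
        intro x y hxy
        funext b
        obtain ⟨i, hi⟩ := hcon b
        exact congrFun (congrFun hxy i) ⟨b, hi⟩
      have h2 : ∀ i : Iio α, #(Iic (f i) → Bool) ≤ 2 ^ μ := by
        intro i
        obtain ⟨b, hb⟩ := exists_gt (f i)
        have h3 : #(Iic (f i)) ≤ #(Iio b) :=
          Cardinal.mk_le_mk_of_subset fun j hj => lt_of_le_of_lt hj hb
        have h4 : #(Iic (f i) → Bool) = 2 ^ #(Iic (f i)) := by simp
        rw [h4]
        exact (Cardinal.power_le_power_left two_ne_zero h3).trans (hseg b)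
      have h3 : #(∀ i : Iio α, (Iic (f i) → Bool)) ≤ (2 ^ μ) ^ #(Iio α) := by
        rw [Cardinal.mk_pi]
        calc Cardinal.prod (fun i : Iio α => #(Iic (f i) → Bool))
            ≤ Cardinal.prod (fun _ : Iio α => (2 : Cardinal.{u}) ^ μ) :=
              Cardinal.prod_le_prod _ _ h2
          _ = (2 ^ μ) ^ #(Iio α) := by simp
      have h4 : ((2 : Cardinal.{u}) ^ μ) ^ #(Iio α) ≤ 2 ^ μ := by
        calc ((2 : Cardinal.{u}) ^ μ) ^ #(Iio α) = (2 ^ #(Iio α)) ^ μ := by
              rw [← Cardinal.power_mul, ← Cardinal.power_mul, mul_comm]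
          _ ≤ (2 ^ μ) ^ μ := Cardinal.power_le_power_right (hseg α)
          _ = 2 ^ μ := by rw [← Cardinal.power_mul, Cardinal.mul_eq_self hμ]
      have h5 : #((least μ).ord.ToType → Bool) = 2 ^ least μ := by simp
      rw [← h5]
      exact (h1.trans h3).trans h4
    exact absurd (least_spec μ) (not_lt.mpr hle)

/-- Move a branch of length `least μ` one step up into `2 ^ κ`, with first value `false`. -/
noncomputable def emb (κ μ : Cardinal.{u}) (x : (least μ).ord.ToType → Bool) : Branch κ :=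
  fun i => by
    classical
    exact if h : i.1 ≠ 0 ∧ i.1 - 1 < (least μ).ord then
      x (Ordinal.ToType.mk ⟨i.1 - 1, h.2⟩) else false

theorem emb_zero (h0 : (0 : Ordinal.{u}) < κ.ord) (x : (least μ).ord.ToType → Bool) :
    emb κ μ x ⟨0, h0⟩ = false := by
  unfold emb
  simp

theorem emb_one_add (x : (least μ).ord.ToType → Bool) (j : Ordinal.{u})
    (hj : j < (least μ).ord) (h1 : 1 + j < κ.ord) :
    emb κ μ x ⟨1 + j, h1⟩ = x (Ordinal.ToType.mk ⟨j, hj⟩) := by
  unfold emb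
  have h2 : (1 + j) ≠ 0 := by
    intro h
    have : (1 : Ordinal.{u}) ≤ 0 := h ▸ le_self_add
    exact absurd this (by simp)
  have h3 : (1 + j) - 1 = j := Ordinal.add_sub_cancel 1 j
  have h4 : (1 + j) ≠ 0 ∧ (1 + j) - 1 < (least μ).ord := ⟨h2, by rw [h3]; exact hj⟩
  rw [dif_pos h4]
  congr 1
  congr 1
  exact Subtype.ext h3

theorem one_add_lt (hκ : ℵ₀ ≤ κ) {j : Ordinal.{u}} (hj : j < κ.ord) : 1 + j < κ.ord := by
  have h := Ordinal.isPrincipal_add_ord hκ
  refine h ?_ hj
  have h1 : (1 : Ordinal.{u}) < Ordinal.omega0 := Ordinal.one_lt_omega0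
  refine h1.trans_le ?_
  rw [← Cardinal.ord_aleph0]
  exact Cardinal.ord_le_ord.mpr hκ

/-- The main theorem on colourings of branches, in the form used for all results. -/
theorem main (hμ : ℵ₀ ≤ μ) (hlt : (2 : Cardinal.{u}) ^ μ < 2 ^ κ)
    (h0 : (0 : Ordinal.{u}) < κ.ord) (c : Branch κ → Branch κ → Ordinal.{u})
    (hsymm : ∀ x y, c x y = c y x)
    (hc : ∀ x y, x ≠ y → x ⟨0, h0⟩ = false → y ⟨0, h0⟩ = false →
      c x y < max (Delta x y) μ.ord) :
    ∃ Y : Set (Branch κ), Y.Infinite ∧ (∀ x ∈ Y, x ⟨0, h0⟩ = false) ∧ ∃ ν, Mono c ν Y := by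
  classical
  have hle : least μ ≤ κ := least_le hlt
  have hμκ : μ < κ := (lt_least μ).trans_le hle
  have hκ : ℵ₀ ≤ κ := hμ.trans hμκ.le
  have hleo : (least μ).ord ≤ κ.ord := Cardinal.ord_le_ord.mpr hle
  have hμl : μ.ord < (least μ).ord := Cardinal.ord_lt_ord.mpr (lt_least μ)
  have hω : Ordinal.omega0 ≤ μ.ord := by
    rw [← Cardinal.ord_aleph0]
    exact Cardinal.ord_le_ord.mpr hμ
  have hl0 : (0 : Ordinal.{u}) < (least μ).ord := (zero_le).trans_lt hμl
  let I := (least μ).ord.ToType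
  let E : (I → Bool) → Branch κ := emb κ μ
  have hE0 : ∀ x, E x ⟨0, h0⟩ = false := fun x => emb_zero h0 x
  -- the first difference of two images
  have hEd : ∀ (x y : I → Bool) (d : I), x d ≠ y d →
      E x ≠ E y ∧ Delta (E x) (E y) ≤ 1 + ((Ordinal.ToType.toOrd d : Iio _) : Ordinal.{u}) := by
    intro x y d hd
    let dd := Ordinal.ToType.toOrd d
    have h1 : (1 : Ordinal.{u}) + dd.1 < κ.ord :=
      one_add_lt hκ (lt_of_lt_of_le dd.2 hleo)
    have hdd : Ordinal.ToType.mk (⟨dd.1, dd.2⟩ : Iio (least μ).ord) = d := by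
      have : (⟨dd.1, dd.2⟩ : Iio (least μ).ord) = Ordinal.ToType.mk.symm d := rfl
      rw [this]
      exact OrderIso.apply_symm_apply _ _
    have h2 : E x ⟨1 + dd.1, h1⟩ = x d := by
      have := emb_one_add (κ := κ) x dd.1 dd.2 h1
      rw [hdd] at this
      exact this
    have h3 : E y ⟨1 + dd.1, h1⟩ = y d := by
      have := emb_one_add (κ := κ) y dd.1 dd.2 h1
      rw [hdd] at this
      exact this
    have h4 : E x ⟨1 + dd.1, h1⟩ ≠ E y ⟨1 + dd.1, h1⟩ := by rw [h2, h3]; exact hd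
    exact ⟨fun h => h4 (by rw [h]), Delta_le_of_ne h1 h4⟩
  have hEinj : Function.Injective E := by
    intro x y hxy
    by_contra hne
    obtain ⟨d, hd⟩ := Function.ne_iff.mp hne
    exact (hEd x y d hd).1 hxy
  let c' : (I → Bool) → (I → Bool) → I := fun x y =>
    if h : c (E x) (E y) < (least μ).ord then Ordinal.ToType.mk ⟨_, h⟩
    else Ordinal.ToType.mk ⟨0, hl0⟩
  have hbound : ∀ (x y : I → Bool) (d : I), x d ≠ y d →
      c (E x) (E y) < max ((Ordinal.ToType.toOrd d : Iio _) : Ordinal.{u}) μ.ord := by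
    intro x y d hd
    obtain ⟨h1, h2⟩ := hEd x y d hd
    refine (hc _ _ h1 (hE0 x) (hE0 y)).trans_le ?_
    refine max_le ?_ (le_max_right _ _)
    refine h2.trans ?_
    have h3 : (1 : Ordinal.{u}) + max ((Ordinal.ToType.toOrd d : Iio _) : Ordinal.{u}) μ.ord =
        max ((Ordinal.ToType.toOrd d : Iio _) : Ordinal.{u}) μ.ord :=
      Ordinal.one_add_of_omega0_le (hω.trans (le_max_right _ _))
    rw [← h3]
    exact add_le_add_right (le_max_left _ _) 1
  have hlt' : ∀ (x y : I → Bool), x ≠ y → c (E x) (E y) < (least μ).ord := by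
    intro x y hxy
    obtain ⟨d, hd⟩ := Function.ne_iff.mp hxy
    exact (hbound x y d hd).trans (max_lt (Ordinal.ToType.toOrd d).2 hμl)
  have hsymm' : ∀ x y, c' x y = c' y x := by
    intro x y
    simp only [c', hsymm (E x) (E y)]
  have hc' : ∀ x y d, x d ≠ y d → (∀ i < d, x i = y i) →
      c' x y < max d (Ordinal.ToType.mk ⟨μ.ord, hμl⟩) := by
    intro x y d hd _
    have hxy : x ≠ y := fun h => hd (by rw [h])
    have h1 := hlt' x y hxy
    have h2 : c' x y = Ordinal.ToType.mk ⟨_, h1⟩ := dif_pos h1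
    rw [h2]
    have h3 := hbound x y d hd
    have hdd : Ordinal.ToType.mk (Ordinal.ToType.toOrd d) = d :=
      OrderIso.apply_symm_apply _ _
    rcases lt_max_iff.mp h3 with h4 | h4
    · refine lt_max_of_lt_left ?_
      rw [← hdd]
      exact (OrderIso.lt_iff_lt _).mpr (show (⟨_, h1⟩ : Iio (least μ).ord) < _ from h4)
    · refine lt_max_of_lt_right ?_
      exact (OrderIso.lt_iff_lt _).mpr (show (⟨_, h1⟩ : Iio (least μ).ord) < ⟨μ.ord, hμl⟩ from h4)
  obtain ⟨Y, hY, ν, hν⟩ := (ctx_least hμ).core c' hsymm' hc'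
  refine ⟨E '' Y, hY.image hEinj.injOn, ?_, ((Ordinal.ToType.toOrd ν : Iio _) : Ordinal.{u}), ?_⟩
  · rintro _ ⟨x, _, rfl⟩
    exact hE0 x
  · rintro _ ⟨x, hx, rfl⟩ _ ⟨y, hy, rfl⟩ hne
    have hxy : x ≠ y := fun h => hne (by rw [h])
    have h1 := hν x hx y hy hxy
    have h2 := hlt' x y hxy
    have h3 : c' x y = Ordinal.ToType.mk ⟨_, h2⟩ := dif_pos h2
    rw [h3] at h1
    rw [← h1]
    simp

end Transfer

end Pool.Agent.H529R3
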