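import Mathlib

set_option autoImplicit false

namespace H529R3.Hoeff

open Finset

/-- sign of a Boolean -/
noncomputable def sg (b : Bool) : ℝ := if b then 1 else -1

lemma mgf {U : Type} [Fintype U] [DecidableEq U] (n : U → ℝ) (l : ℝ) :
    ∑ g : U → Bool, Real.exp (l * ∑ u, n u * sg (g u))
      ≤ 2 ^ Fintype.card U * Real.exp (l ^ 2 * (∑ u, n u ^ 2) / 2) := by
  have h1 : ∀ g : U → Bool, Real.exp (l * ∑ u, n u * sg (g u))
      = ∏ u, Real.exp (l * (n u * sg (g u))) := by
    intro g
    rw [Finset.mul_sum, Real.exp_sum]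
  have h2 : ∑ g : U → Bool, ∏ u, Real.exp (l * (n u * sg (g u)))
      = ∏ u : U, ∑ b : Bool, Real.exp (l * (n u * sg b)) := by
    rw [Finset.prod_univ_sum, Fintype.piFinset_univ]
  have h3 : ∀ u : U, ∑ b : Bool, Real.exp (l * (n u * sg b))
      ≤ 2 * Real.exp ((l * n u) ^ 2 / 2) := by
    intro u
    have : ∑ b : Bool, Real.exp (l * (n u * sg b)) = 2 * Real.cosh (l * n u) := by
      rw [Fintype.sum_bool, Real.cosh_eq]
      simp [sg]
      ring_nf
    rw [this]
    have := Real.cosh_le_exp_half_sq (l * n u)
    linarith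
  calc ∑ g : U → Bool, Real.exp (l * ∑ u, n u * sg (g u))
      = ∏ u : U, ∑ b : Bool, Real.exp (l * (n u * sg b)) := by
        rw [← h2]; exact Finset.sum_congr rfl (fun g _ => h1 g)
    _ ≤ ∏ u : U, (2 * Real.exp ((l * n u) ^ 2 / 2)) := by
        apply Finset.prod_le_prod
        · intro u _
          exact Finset.sum_nonneg (fun b _ => (Real.exp_pos _).le)
        · intro u _
          exact h3 u
    _ = 2 ^ Fintype.card U * Real.exp (l ^ 2 * (∑ u, n u ^ 2) / 2) := by
        rw [Finset.prod_mul_distrib, Finset.prod_const, ← Real.exp_sum]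
        congr 2
        rw [Finset.mul_sum, Finset.sum_div]
        apply Finset.sum_congr rfl
        intro u _
        ring

lemma tail {U : Type} [Fintype U] [DecidableEq U] (n : U → ℝ) (q d l : ℝ) (hl : 0 ≤ l)
    (hq : ∑ u, n u ^ 2 ≤ q) :
    ((univ.filter (fun g : U → Bool => d < ∑ u, n u * sg (g u))).card : ℝ)
      ≤ 2 ^ Fintype.card U * Real.exp (l ^ 2 * q / 2 - l * d) := by
  classical
  have h := mgf n l
  have h1 : ((univ.filter (fun g : U → Bool => d < ∑ u, n u * sg (g u))).card : ℝ)
      * Real.exp (l * d) ≤ ∑ g : U → Bool, Real.exp (l * ∑ u, n u * sg (g u)) := by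
    calc ((univ.filter (fun g : U → Bool => d < ∑ u, n u * sg (g u))).card : ℝ)
      * Real.exp (l * d)
        = ∑ g ∈ univ.filter (fun g : U → Bool => d < ∑ u, n u * sg (g u)), Real.exp (l * d) := by
          rw [Finset.sum_const, nsmul_eq_mul]
      _ ≤ ∑ g ∈ univ.filter (fun g : U → Bool => d < ∑ u, n u * sg (g u)),
            Real.exp (l * ∑ u, n u * sg (g u)) := by
          apply Finset.sum_le_sum
          intro g hg
          rw [Finset.mem_filter] at hg
          apply Real.exp_le_exp.mpr
          exact mul_le_mul_of_nonneg_left hg.2.le hl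
      _ ≤ _ := by
          apply Finset.sum_le_sum_of_subset_of_nonneg (Finset.filter_subset _ _)
          intro g _ _
          exact (Real.exp_pos _).le
  have h2 : Real.exp (l ^ 2 * (∑ u, n u ^ 2) / 2) ≤ Real.exp (l ^ 2 * q / 2) := by
    apply Real.exp_le_exp.mpr
    have := mul_le_mul_of_nonneg_left hq (sq_nonneg l)
    linarith
  have h3 : Real.exp (l ^ 2 * q / 2 - l * d) * Real.exp (l * d) = Real.exp (l ^ 2 * q / 2) := by
    rw [← Real.exp_add]; congr 1; ring
  have h4 : 0 < Real.exp (l * d) := Real.exp_pos _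
  have h5 : (0 : ℝ) ≤ 2 ^ Fintype.card U := by positivity
  have h6 : ((univ.filter (fun g : U → Bool => d < ∑ u, n u * sg (g u))).card : ℝ)
      * Real.exp (l * d)
      ≤ (2 ^ Fintype.card U * Real.exp (l ^ 2 * q / 2 - l * d)) * Real.exp (l * d) := by
    rw [mul_assoc, h3]
    exact h1.trans (h.trans (mul_le_mul_of_nonneg_left h2 h5))
  exact le_of_mul_le_mul_right h6 h4

/-- The probabilistic lemma: a random colouring of the types is balanced on every class. -/
theorem exists_coloring {U C J : Type} [Fintype U] [DecidableEq U] [Fintype C] [Fintype J]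
    (f : C → J → U) (p d : ℝ) (hp0 : 0 < p) (hd : 0 < d) (hJ : 0 < Fintype.card J)
    (hp : ∀ c u, ((univ.filter (fun j => f c j = u)).card : ℝ) ≤ p * Fintype.card J)
    (hM : 2 * (Fintype.card C : ℝ) * Real.exp (-(d ^ 2 / (2 * p))) < 1) :
    ∃ g : U → Bool, ∀ c, |∑ j, sg (g (f c j))| ≤ d * Fintype.card J := by
  classical
  set n : C → U → ℝ := fun c u => ((univ.filter (fun j => f c j = u)).card : ℝ) with hn
  set m : ℝ := (Fintype.card J : ℝ) with hm
  have hm0 : 0 < m := by rw [hm]; exact_mod_cast hJ
  have hsum : ∀ c, ∑ u, n c u = m := by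
    intro c
    have := Finset.card_eq_sum_card_fiberwise (s := (univ : Finset J)) (t := (univ : Finset U))
      (f := f c) (fun _ _ => by simp)
    rw [hm, ← Finset.card_univ, this]
    simp [hn]
  have hsq : ∀ c, ∑ u, n c u ^ 2 ≤ p * m ^ 2 := by
    intro c
    calc ∑ u, n c u ^ 2 ≤ ∑ u, (p * m) * n c u := by
          apply Finset.sum_le_sum
          intro u _
          rw [sq]
          exact mul_le_mul_of_nonneg_right (hp c u) (by simp [hn])
      _ = p * m ^ 2 := by rw [← Finset.mul_sum, hsum c]; ring
  have hval : ∀ c (g : U → Bool), ∑ j, sg (g (f c j)) = ∑ u, n c u * sg (g u) := by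
    intro c g
    rw [← Finset.sum_fiberwise_of_maps_to (s := (univ : Finset J)) (t := (univ : Finset U))
      (g := f c) (fun _ _ => by simp)]
    apply Finset.sum_congr rfl
    intro u _
    rw [Finset.sum_congr rfl (g := fun _ => sg (g u))]
    · rw [Finset.sum_const, nsmul_eq_mul]
    · intro j hj
      rw [Finset.mem_filter] at hj
      rw [hj.2]
  set l : ℝ := d / (p * m) with hl
  have hl0 : 0 ≤ l := by positivity
  have hexp : l ^ 2 * (p * m ^ 2) / 2 - l * (d * m) = -(d ^ 2 / (2 * p)) := by
    rw [hl]; field_simp; ring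
  set E : ℝ := Real.exp (-(d ^ 2 / (2 * p))) with hE
  have htail1 : ∀ c, ((univ.filter (fun g : U → Bool => d * m < ∑ u, n c u * sg (g u))).card : ℝ)
      ≤ 2 ^ Fintype.card U * E := by
    intro c
    have := tail (n c) (p * m ^ 2) (d * m) l hl0 (hsq c)
    rw [hexp] at this
    exact this
  have htail2 : ∀ c, ((univ.filter
      (fun g : U → Bool => d * m < ∑ u, (- n c u) * sg (g u))).card : ℝ)
      ≤ 2 ^ Fintype.card U * E := by
    intro c
    have h0 : ∑ u, (- n c u) ^ 2 ≤ p * m ^ 2 := by
      simpa using hsq c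
    have := tail (fun u => - n c u) (p * m ^ 2) (d * m) l hl0 h0
    rw [hexp] at this
    exact this
  by_contra hcon
  push Not at hcon
  have hcover : (univ : Finset (U → Bool)) ⊆
      (univ : Finset C).biUnion (fun c =>
        (univ.filter (fun g : U → Bool => d * m < ∑ u, n c u * sg (g u))) ∪
        (univ.filter (fun g : U → Bool => d * m < ∑ u, (- n c u) * sg (g u)))) := by
    intro g _
    obtain ⟨c, hc⟩ := hcon g
    rw [Finset.mem_biUnion]
    refine ⟨c, Finset.mem_univ _, ?_⟩
    rw [hval c g] at hc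
    rw [Finset.mem_union, Finset.mem_filter, Finset.mem_filter]
    rcases lt_abs.mp hc with h | h
    · left; exact ⟨Finset.mem_univ _, h⟩
    · right
      refine ⟨Finset.mem_univ _, ?_⟩
      have : ∑ u, (- n c u) * sg (g u) = - ∑ u, n c u * sg (g u) := by
        rw [← Finset.sum_neg_distrib]
        apply Finset.sum_congr rfl
        intro u _; ring
      rw [this]; exact h
  have hcard := Finset.card_le_card hcover
  have hcard2 : ((univ : Finset (U → Bool)).card : ℝ) ≤
      ∑ c : C, (2 ^ Fintype.card U * E + 2 ^ Fintype.card U * E) := by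
    calc ((univ : Finset (U → Bool)).card : ℝ)
        ≤ (((univ : Finset C).biUnion (fun c =>
        (univ.filter (fun g : U → Bool => d * m < ∑ u, n c u * sg (g u))) ∪
        (univ.filter (fun g : U → Bool => d * m < ∑ u, (- n c u) * sg (g u))))).card : ℝ) := by
          exact_mod_cast hcard
      _ ≤ ((∑ c : C, ((univ.filter (fun g : U → Bool => d * m < ∑ u, n c u * sg (g u))) ∪
        (univ.filter (fun g : U → Bool => d * m < ∑ u, (- n c u) * sg (g u)))).card : ℕ) : ℝ) := by
          exact_mod_cast Finset.card_biUnion_le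
      _ ≤ _ := by
          push_cast
          apply Finset.sum_le_sum
          intro c _
          have h1 := htail1 c
          have h2 := htail2 c
          have h3 : ((((univ.filter (fun g : U → Bool => d * m < ∑ u, n c u * sg (g u))) ∪
        (univ.filter (fun g : U → Bool => d * m < ∑ u, (- n c u) * sg (g u)))).card : ℕ) : ℝ)
            ≤ ((univ.filter (fun g : U → Bool => d * m < ∑ u, n c u * sg (g u))).card : ℝ) +
              ((univ.filter (fun g : U → Bool => d * m < ∑ u, (- n c u) * sg (g u))).card : ℝ) := by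
            exact_mod_cast Finset.card_union_le _ _
          linarith
  rw [Finset.sum_const, nsmul_eq_mul, Finset.card_univ, Finset.card_univ, Fintype.card_fun,
    Fintype.card_bool] at hcard2
  push_cast at hcard2
  have hpos : (0 : ℝ) < 2 ^ Fintype.card U := by positivity
  have : (2 : ℝ) ^ Fintype.card U * (2 * (Fintype.card C : ℝ) * E) < 2 ^ Fintype.card U * 1 :=
    mul_lt_mul_of_pos_left hM hpos
  linarith

end H529R3.Hoeff
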