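import Mathlib
import Pool.Agent.H529R3.Delta

set_option autoImplicit false

/-!
# Regressive colourings of pairs of branches
-/

open Cardinal Set

namespace Pool.Agent.H529R3

universe u

/-- A symmetric colouring of the pairs of different branches by ordinals below `κ` is regressive
when the colour of a pair is below its first difference, for all pairs with positive first
difference. -/
def DeltaRegressive (κ : Cardinal.{u}) (c : Branch κ → Branch κ → Ordinal.{u}) : Prop :=
  (∀ x y, c x y = c y x) ∧ (∀ x y, x ≠ y → c x y < κ.ord) ∧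
    ∀ x y, x ≠ y → 0 < Delta x y → c x y < Delta x y

section

variable {κ : Cardinal.{u}}

theorem nat_lt_ord (hκ : ℵ₀ < κ) (n : ℕ) : (n : Ordinal.{u}) < κ.ord := by
  have h1 : (n : Ordinal.{u}) < (ℵ₀ : Cardinal.{u}).ord := by
    rw [Cardinal.ord_aleph0]
    exact Ordinal.natCast_lt_omega0 n
  exact h1.trans_le (Cardinal.ord_le_ord.mpr hκ.le)

theorem omega_lt_ord (hκ : ℵ₀ < κ) : Ordinal.omega0.{u} < κ.ord := by
  rw [← Cardinal.ord_aleph0]
  exact Cardinal.ord_lt_ord.mpr hκ

/-- The value of a branch at a natural number. -/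
def nv (hκ : ℵ₀ < κ) (x : Branch κ) (n : ℕ) : Bool := x ⟨(n : Ordinal.{u}), nat_lt_ord hκ n⟩

theorem Delta_le_nat (hκ : ℵ₀ < κ) {x y : Branch κ} {n : ℕ} (h : nv hκ x n ≠ nv hκ y n) :
    Delta x y ≤ (n : Ordinal.{u}) := Delta_le_of_ne (nat_lt_ord hκ n) h

theorem nv_eq_of_lt (hκ : ℵ₀ < κ) {x y : Branch κ} {n : ℕ} (h : (n : Ordinal.{u}) < Delta x y) :
    nv hκ x n = nv hκ y n := eq_of_lt_Delta (nat_lt_ord hκ n) h

theorem nv_ne_of_eq (hκ : ℵ₀ < κ) {x y : Branch κ} (hxy : x ≠ y) {n : ℕ}
    (h : Delta x y = (n : Ordinal.{u})) : nv hκ x n ≠ nv hκ y n := by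
  obtain ⟨h1, h2⟩ := Delta_spec hxy
  unfold nv
  have : (⟨Delta x y, h1⟩ : Iio κ.ord) = ⟨(n : Ordinal.{u}), nat_lt_ord hκ n⟩ := Subtype.ext h
  rw [this] at h2
  exact h2

/-- The branches which follow `f` below `n`. -/
def Cone (hκ : ℵ₀ < κ) (f : ℕ → Bool) (n : ℕ) : Set (Branch κ) :=
  {x | ∀ i < n, nv hκ x i = f i}

/-- No pair of the cone of `f` at `n + 1` has a colour below `n`. -/
def Good (hκ : ℵ₀ < κ) (c : Branch κ → Branch κ → Ordinal.{u}) (f : ℕ → Bool) (n : ℕ) : Prop :=
  ∀ x ∈ Cone hκ f (n + 1), ∀ y ∈ Cone hκ f (n + 1), x ≠ y → (n : Ordinal.{u}) ≤ c x y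

theorem Cone_congr (hκ : ℵ₀ < κ) {f g : ℕ → Bool} {n : ℕ} (h : ∀ i < n, f i = g i) :
    Cone hκ f n = Cone hκ g n := by
  ext x
  constructor
  · intro hx i hi
    rw [hx i hi, h i hi]
  · intro hx i hi
    rw [hx i hi, h i hi]

theorem good_step (hκ : ℵ₀ < κ) (c : Branch κ → Branch κ → Ordinal.{u})
    (hc : DeltaRegressive κ c)
    (hno : ¬ ∃ Y : Set (Branch κ), Y.ncard = 4 ∧ ∃ ν, Mono c ν Y) (f : ℕ → Bool) (n : ℕ)
    (hg : Good hκ c f n) : ∃ b, Good hκ c (Function.update f (n + 1) b) (n + 1) := by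
  classical
  by_contra hcon
  push Not at hcon
  have key : ∀ b : Bool, ∃ x ∈ Cone hκ f (n + 1), ∃ y ∈ Cone hκ f (n + 1), x ≠ y ∧
      nv hκ x (n + 1) = b ∧ nv hκ y (n + 1) = b ∧ c x y = (n : Ordinal.{u}) := by
    intro b
    have h1 := hcon b
    unfold Good at h1
    push Not at h1
    obtain ⟨x, hx, y, hy, hxy, h2⟩ := h1
    have hx' : x ∈ Cone hκ f (n + 1) := by
      intro i hi
      rw [hx i (by omega), Function.update_of_ne (by omega)]
    have hy' : y ∈ Cone hκ f (n + 1) := by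
      intro i hi
      rw [hy i (by omega), Function.update_of_ne (by omega)]
    refine ⟨x, hx', y, hy', hxy, ?_, ?_, ?_⟩
    · rw [hx (n + 1) (by omega), Function.update_self]
    · rw [hy (n + 1) (by omega), Function.update_self]
    · refine le_antisymm ?_ (hg x hx' y hy' hxy)
      rw [Nat.cast_succ] at h2
      exact Order.lt_add_one_iff.mp h2
  have cross : ∀ x ∈ Cone hκ f (n + 1), ∀ y ∈ Cone hκ f (n + 1),
      nv hκ x (n + 1) ≠ nv hκ y (n + 1) → c x y = (n : Ordinal.{u}) := by
    intro x hx y hy hne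
    have hxy : x ≠ y := fun h => hne (by rw [h])
    have h1 : Delta x y = ((n + 1 : ℕ) : Ordinal.{u}) := by
      refine le_antisymm (Delta_le_nat hκ hne) ?_
      by_contra h2
      push Not at h2
      obtain ⟨m, hm⟩ := Ordinal.lt_omega0.mp (h2.trans (Ordinal.natCast_lt_omega0 _))
      rw [hm] at h2
      have h3 : m < n + 1 := by exact_mod_cast h2
      have h4 := nv_ne_of_eq hκ hxy hm
      rw [hx m h3, hy m h3] at h4
      exact h4 rfl
    have h2 : 0 < Delta x y := by
      rw [h1]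
      exact_mod_cast Nat.succ_pos n
    have h3 := hc.2.2 x y hxy h2
    rw [h1, Nat.cast_succ] at h3
    exact le_antisymm (Order.lt_add_one_iff.mp h3) (hg x hx y hy hxy)
  obtain ⟨x, hx, x', hx', hxx, h1, h2, h3⟩ := key false
  obtain ⟨y, hy, y', hy', hyy, h4, h5, h6⟩ := key true
  have hne : ∀ {a b : Branch κ}, nv hκ a (n + 1) = false → nv hκ b (n + 1) = true →
      a ≠ b := by
    intro a b ha hb hab
    rw [hab, hb] at ha
    exact absurd ha (by simp)
  have hxy := hne h1 h4
  have hxy' := hne h1 h5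
  have hx'y := hne h2 h4
  have hx'y' := hne h2 h5
  have hcr : ∀ {a b : Branch κ}, a ∈ Cone hκ f (n + 1) → b ∈ Cone hκ f (n + 1) →
      nv hκ a (n + 1) = false → nv hκ b (n + 1) = true → c a b = (n : Ordinal.{u}) := by
    intro a b ha hb ha' hb'
    refine cross a ha b hb ?_
    rw [ha', hb']
    simp
  refine hno ⟨{x, x', y, y'}, ?_, (n : Ordinal.{u}), ?_⟩
  · rw [show ({x, x', y, y'} : Set (Branch κ)) = ((({x, x', y, y'} : Finset (Branch κ))) :
      Set (Branch κ)) by simp]
    rw [Set.ncard_coe_finset, Finset.card_insert_of_notMem, Finset.card_insert_of_notMem,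
      Finset.card_insert_of_notMem, Finset.card_singleton]
    · simpa using hyy
    · simp only [Finset.mem_insert, Finset.mem_singleton, not_or]
      exact ⟨hx'y, hx'y'⟩
    · simp only [Finset.mem_insert, Finset.mem_singleton, not_or]
      exact ⟨hxx, hxy, hxy'⟩
  · intro a ha b hb hab
    simp only [mem_insert_iff, mem_singleton_iff] at ha hb
    have hs := hc.1
    rcases ha with rfl | rfl | rfl | rfl <;> rcases hb with rfl | rfl | rfl | rfl
    · exact absurd rfl hab
    · exact h3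
    · exact hcr hx hy h1 h4
    · exact hcr hx hy' h1 h5
    · rw [hs]; exact h3
    · exact absurd rfl hab
    · exact hcr hx' hy h2 h4
    · exact hcr hx' hy' h2 h5
    · rw [hs]; exact hcr hx hy h1 h4
    · rw [hs]; exact hcr hx' hy h2 h4
    · exact absurd rfl hab
    · exact h6
    · rw [hs]; exact hcr hx hy' h1 h5
    · rw [hs]; exact hcr hx' hy' h2 h5
    · rw [hs]; exact h6
    · exact absurd rfl hab

theorem exists_four (hκ : ℵ₀ < κ) (c : Branch κ → Branch κ → Ordinal.{u})
    (hc : DeltaRegressive κ c) :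
    ∃ Y : Set (Branch κ), Y.ncard = 4 ∧ ∃ ν, Mono c ν Y := by
  classical
  by_contra hno
  have hstep : ∀ (f : ℕ → Bool) (n : ℕ), ∃ b, Good hκ c f n →
      Good hκ c (Function.update f (n + 1) b) (n + 1) := by
    intro f n
    by_cases hg : Good hκ c f n
    · obtain ⟨b, hb⟩ := good_step hκ c hc hno f n hg
      exact ⟨b, fun _ => hb⟩
    · exact ⟨false, fun h => absurd h hg⟩
  choose b hb using hstep
  let s : ℕ → (ℕ → Bool) := fun n => Nat.rec (fun _ => false)
    (fun n f => Function.update f (n + 1) (b f n)) n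
  have hs : ∀ n, s (n + 1) = Function.update (s n) (n + 1) (b (s n) n) := fun n => rfl
  have hgood : ∀ n, Good hκ c (s n) n := by
    intro n
    induction n with
    | zero =>
      intro x _ y _ _
      rw [Nat.cast_zero]
      exact zero_le
    | succ n ih =>
      rw [hs]
      exact hb _ _ ih
  have hstab : ∀ n i, i ≤ n → s n i = s i i := by
    intro n
    induction n with
    | zero => intro i hi; rw [Nat.le_zero.mp hi]
    | succ n ih =>
      intro i hi
      rcases Nat.lt_or_ge n i with h | h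
      · have : i = n + 1 := by omega
        rw [this]
      · rw [hs, Function.update_of_ne (by omega)]
        exact ih i h
  let f : ℕ → Bool := fun i => s i i
  have hf : ∀ n, Good hκ c f n := by
    intro n
    have h1 : Cone hκ f (n + 1) = Cone hκ (s n) (n + 1) :=
      Cone_congr hκ fun i hi => (hstab n i (by omega)).symm
    have h2 := hgood n
    unfold Good at h2 ⊢
    rw [h1]
    exact h2
  -- two branches which follow `f` and differ first at `ω`
  let p : Bool → Branch κ := fun b i => if h : ∃ n : ℕ, i.1 = (n : Ordinal.{u}) then f h.choose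
    else b
  have hp : ∀ b n, nv hκ (p b) n = f n := by
    intro b n
    have h : ∃ m : ℕ, (n : Ordinal.{u}) = (m : Ordinal.{u}) := ⟨n, rfl⟩
    have h1 : p b ⟨(n : Ordinal.{u}), nat_lt_ord hκ n⟩ = f h.choose := dif_pos h
    have h2 : n = h.choose := by exact_mod_cast h.choose_spec
    unfold nv
    rw [h1, ← h2]
  have hpω : ∀ b, p b ⟨Ordinal.omega0, omega_lt_ord hκ⟩ = b := by
    intro b
    have h : ¬ ∃ m : ℕ, Ordinal.omega0 = (m : Ordinal.{u}) := by
      rintro ⟨m, hm⟩
      exact absurd hm (Ordinal.natCast_lt_omega0 m).ne'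
    exact dif_neg h
  have hne : p false ≠ p true := by
    intro h
    have h1 := hpω false
    rw [h, hpω] at h1
    exact absurd h1 (by simp)
  have hΔ : Delta (p false) (p true) = Ordinal.omega0 := by
    refine Delta_eq (omega_lt_ord hκ) ?_ ?_
    · rw [hpω, hpω]; simp
    · intro j hj
      obtain ⟨m, rfl⟩ := Ordinal.lt_omega0.mp hj
      have h1 := hp false m
      have h2 := hp true m
      unfold nv at h1 h2
      rw [h1, h2]
  have h1 := hc.2.2 _ _ hne (by rw [hΔ]; exact Ordinal.omega0_pos)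
  rw [hΔ] at h1
  obtain ⟨n, hn⟩ := Ordinal.lt_omega0.mp h1
  have h2 := hf (n + 1) (p false) (fun i _ => hp false i) (p true) (fun i _ => hp true i) hne
  rw [hn] at h2
  have h3 : n + 1 ≤ n := by exact_mod_cast h2
  omega

/-- The first difference of two different binary sequences. -/
noncomputable def fd (f g : ℕ → Bool) : ℕ := sInf {n | f n ≠ g n}

theorem fd_symm (f g : ℕ → Bool) : fd f g = fd g f := by
  unfold fd
  congr 1
  ext n
  exact ne_comm

theorem fd_spec {f g : ℕ → Bool} (h : f ≠ g) : f (fd f g) ≠ g (fd f g) := by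
  have h1 : {n | f n ≠ g n}.Nonempty := Function.ne_iff.mp h
  exact Nat.sInf_mem h1

theorem exists_embedding (h : (2 : Cardinal.{u}) ^ κ ≤ (2 : Cardinal.{u}) ^ ℵ₀) :
    ∃ r : Branch κ → (ℕ → Bool), Function.Injective r := by
  have h1 : #(Branch κ) ≤ Cardinal.lift.{u + 1} #(ℕ → Bool) := by
    have h2 : #(Branch κ) = Cardinal.lift.{u + 1} ((2 : Cardinal.{u}) ^ κ) := by
      simp [Branch, Cardinal.mk_Iio_ordinal]
    have h3 : Cardinal.lift.{u + 1} #(ℕ → Bool) =
        Cardinal.lift.{u + 1} ((2 : Cardinal.{u}) ^ (ℵ₀ : Cardinal.{u})) := by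
      simp
    rw [h2, h3]
    exact Cardinal.lift_le.mpr h
  rw [← Cardinal.lift_id'.{0, u + 1} #(Branch κ)] at h1
  have h4 := Cardinal.lift_mk_le'.mp h1
  obtain ⟨e⟩ := h4
  exact ⟨e, e.injective⟩

theorem exists_small (hκ : ℵ₀ < κ) (h : (2 : Cardinal.{u}) ^ κ ≤ (2 : Cardinal.{u}) ^ ℵ₀) :
    ∃ c : Branch κ → Branch κ → Ordinal.{u}, DeltaRegressive κ c ∧
      ∀ (Y : Set (Branch κ)) (ν : Ordinal.{u}), Mono c ν Y → Y.Finite ∧ Y.ncard ≤ 4 := by
  classical
  obtain ⟨r, hr⟩ := exists_embedding h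
  let c : Branch κ → Branch κ → Ordinal.{u} := fun x y =>
    if Delta x y = 0 then Ordinal.omega0
    else if Delta x y < Ordinal.omega0 then Delta x y - 1
    else (fd (r x) (r y) : Ordinal.{u})
  have small : ∀ (Y : Set (Branch κ)) (g : Branch κ → Bool × Bool), Set.InjOn g Y →
      Y.Finite ∧ Y.ncard ≤ 4 := by
    intro Y g hg
    have h1 : Y.Finite := Set.Finite.of_finite_image (Set.toFinite _) hg
    refine ⟨h1, ?_⟩
    rw [← hg.ncard_image]
    have h2 : (g '' Y).ncard ≤ (Set.univ : Set (Bool × Bool)).ncard :=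
      Set.ncard_le_ncard (Set.subset_univ _) (Set.toFinite _)
    rw [Set.ncard_univ] at h2
    simpa using h2
  have hc0 : ∀ x y, Delta x y = 0 → c x y = Ordinal.omega0 := fun x y h0 => if_pos h0
  have hc1 : ∀ x y (n : ℕ), Delta x y = ((n + 1 : ℕ) : Ordinal.{u}) →
      c x y = (n : Ordinal.{u}) := by
    intro x y n hn
    have h1 : Delta x y ≠ 0 := by
      rw [hn]
      exact_mod_cast Nat.succ_ne_zero n
    have h2 : Delta x y < Ordinal.omega0 := by
      rw [hn]
      exact Ordinal.natCast_lt_omega0 _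
    have h3 : c x y = Delta x y - 1 := by
      simp only [c, if_neg h1, if_pos h2]
    rw [h3, hn]
    have h4 : ((n + 1 : ℕ) : Ordinal.{u}) = 1 + (n : Ordinal.{u}) := by
      rw [add_comm n 1]
      push_cast
      rfl
    rw [h4]
    exact Ordinal.add_sub_cancel 1 _
  have hc2 : ∀ x y, Ordinal.omega0 ≤ Delta x y → c x y = (fd (r x) (r y) : Ordinal.{u}) := by
    intro x y h1
    have h2 : Delta x y ≠ 0 := by
      intro h2
      rw [h2] at h1
      exact absurd h1 (not_le.mpr Ordinal.omega0_pos)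
    simp only [c, if_neg h2, if_neg (not_lt.mpr h1)]
  have htri : ∀ x y : Branch κ, Delta x y = 0 ∨ (∃ n : ℕ, Delta x y = ((n + 1 : ℕ) : Ordinal.{u})) ∨
      Ordinal.omega0 ≤ Delta x y := by
    intro x y
    rcases lt_or_ge (Delta x y) Ordinal.omega0 with h1 | h1
    · obtain ⟨n, hn⟩ := Ordinal.lt_omega0.mp h1
      rcases n with _ | n
      · left; rw [hn]; simp
      · right; left; exact ⟨n, hn⟩
    · right; right; exact h1
  refine ⟨c, ⟨?_, ?_, ?_⟩, ?_⟩
  · intro x y
    simp only [c, Delta_symm x y, fd_symm (r x) (r y)]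
  · intro x y hxy
    rcases htri x y with h1 | ⟨n, h1⟩ | h1
    · rw [hc0 x y h1]; exact omega_lt_ord hκ
    · rw [hc1 x y n h1]; exact nat_lt_ord hκ n
    · rw [hc2 x y h1]; exact nat_lt_ord hκ _
  · intro x y hxy hpos
    rcases htri x y with h1 | ⟨n, h1⟩ | h1
    · exact absurd h1 hpos.ne'
    · rw [hc1 x y n h1, h1]
      exact_mod_cast Nat.lt_succ_self n
    · rw [hc2 x y h1]
      exact (Ordinal.natCast_lt_omega0 _).trans_le h1
  · intro Y ν hY
    rcases lt_or_ge ν Ordinal.omega0 with hν | hν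
    · obtain ⟨k, rfl⟩ := Ordinal.lt_omega0.mp hν
      refine small Y (fun x => (nv hκ x (k + 1), r x k)) ?_
      intro x hx y hy hxy
      by_contra hne
      have h1 := hY x hx y hy hne
      have h2 : nv hκ x (k + 1) = nv hκ y (k + 1) := congrArg Prod.fst hxy
      have h3 : r x k = r y k := congrArg Prod.snd hxy
      rcases htri x y with h4 | ⟨n, h4⟩ | h4
      · rw [hc0 x y h4] at h1
        exact absurd h1 (Ordinal.natCast_lt_omega0 k).ne'
      · rw [hc1 x y n h4] at h1
        have h5 : n = k := by exact_mod_cast h1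
        rw [h5] at h4
        exact nv_ne_of_eq hκ hne h4 h2
      · rw [hc2 x y h4] at h1
        have h5 : fd (r x) (r y) = k := by exact_mod_cast h1
        have h6 := fd_spec (fun h => hne (hr h))
        rw [h5] at h6
        exact h6 h3
    · refine small Y (fun x => (nv hκ x 0, false)) ?_
      intro x hx y hy hxy
      by_contra hne
      have h1 := hY x hx y hy hne
      have h2 : nv hκ x 0 = nv hκ y 0 := congrArg Prod.fst hxy
      rcases htri x y with h4 | ⟨n, h4⟩ | h4
      · exact nv_ne_of_eq hκ hne (by rw [h4]; simp) h2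
      · rw [hc1 x y n h4] at h1
        rw [← h1] at hν
        exact absurd hν (not_le.mpr (Ordinal.natCast_lt_omega0 n))
      · rw [hc2 x y h4] at h1
        rw [← h1] at hν
        exact absurd hν (not_le.mpr (Ordinal.natCast_lt_omega0 _))

theorem exists_infinite (hκ : ℵ₀ < κ) (h : (2 : Cardinal.{u}) ^ ℵ₀ < (2 : Cardinal.{u}) ^ κ)
    (c : Branch κ → Branch κ → Ordinal.{u}) (hc : DeltaRegressive κ c) :
    ∃ Y : Set (Branch κ), Y.Infinite ∧ ∃ ν, Mono c ν Y := by
  have hpos : (0 : Ordinal.{u}) < κ.ord := by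
    have := nat_lt_ord hκ 0
    rwa [Nat.cast_zero] at this
  obtain ⟨Y, hY, -, hν⟩ := main (κ := κ) (μ := ℵ₀) le_rfl h hpos c hc.1 (by
    intro x y hxy hx hy
    refine lt_max_of_lt_left (hc.2.2 x y hxy ?_)
    refine lt_of_le_of_ne zero_le (Ne.symm ?_)
    intro h0
    obtain ⟨h1, h2⟩ := Delta_spec hxy
    have h3 : (⟨Delta x y, h1⟩ : Iio κ.ord) = ⟨0, hpos⟩ := Subtype.ext h0
    rw [h3, hx, hy] at h2
    exact h2 rfl)
  exact ⟨Y, hY, hν⟩

end

end Pool.Agent.H529R3
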